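import Pool.Agent.K6.H44.QG.Main
import Pool.Agent.W558.Var

/-!
Quotients of smooth families by finite groups of sections of the general linear group.
-/

set_option autoImplicit false
set_option linter.unusedSectionVars false

open AlgebraicGeometry CategoryTheory

namespace Pool.Agent.K6.H44.QG

section free

variable {Γ R A : Type*} [Group Γ] [CommRing R] [CommRing A] [Algebra R A] {n : ℕ}
  (φ : Γ →* GL (Fin n) R)

lemma const_mem_OA (ρ : Γ →* (A ≃ₐ[R] A)) (r : R) : (fun _ : Γ => algebraMap R A r) ∈ OA ρ := by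
  have h1 : (fun _ : Γ => algebraMap R A r) = (algebraMap R A r) • (fun γ => ρ γ 1) := by
    funext γ
    rw [Pi.smul_apply, map_one, smul_eq_mul, mul_one]
  rw [h1]
  exact Submodule.smul_mem _ _ (Submodule.subset_span ⟨_, rfl⟩)

lemma pow_mem_OA (ρ : Γ →* (A ≃ₐ[R] A))
    (h : ∀ i j, (fun γ => algebraMap R A (ent φ i j γ)) ∈ OA ρ) (m : ℕ) (i j : Fin n) :
    (fun γ => algebraMap R A (((φ γ) ^ m : GL (Fin n) R).1 i j)) ∈ OA ρ := by
  induction m generalizing i j with
  | zero =>
    have h1 := const_mem_OA ρ ((1 : Matrix (Fin n) (Fin n) R) i j)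
    convert h1 using 1
    funext γ
    rw [pow_zero, Units.val_one]
  | succ m ih =>
    have h1 : (fun γ => algebraMap R A (((φ γ) ^ (m + 1) : GL (Fin n) R).1 i j)) =
        ∑ l, (fun γ => algebraMap R A (((φ γ) ^ m : GL (Fin n) R).1 i l)) *
          (fun γ => algebraMap R A (ent φ l j γ)) := by
      funext γ
      rw [Finset.sum_apply, pow_succ, Units.val_mul, Matrix.mul_apply, map_sum]
      refine Finset.sum_congr rfl fun l _ => ?_
      rw [Pi.mul_apply, map_mul]
      rfl
    rw [h1]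
    exact Submodule.sum_mem _ fun l _ => OA_mul (ih i l) (h l j)

lemma HG_mem_OA' [Finite Γ] (ρ : Γ →* (A ≃ₐ[R] A))
    (h : ∀ i j, (fun γ => algebraMap R A (ent φ i j γ)) ∈ OA ρ) (f : Γ → R) (hf : f ∈ HG φ) :
    (fun γ => algebraMap R A (f γ)) ∈ OA ρ := by
  have hinv : ∀ γ, (φ γ)⁻¹ = (φ γ) ^ (Nat.card Γ - 1) := by
    intro γ
    have h1 : (φ γ) ^ (Nat.card Γ - 1) * φ γ = 1 := by
      rw [← pow_succ, Nat.sub_add_cancel Nat.card_pos, ← map_pow, pow_card_eq_one', map_one]
    exact (eq_inv_of_mul_eq_one_left h1).symm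
  unfold HG at hf
  induction hf using Algebra.adjoin_induction with
  | mem x hx =>
    rcases hx with ⟨⟨i, j⟩, rfl⟩ | ⟨⟨i, j⟩, rfl⟩
    · exact h i j
    · have h1 := pow_mem_OA φ ρ h (Nat.card Γ - 1) i j
      convert h1 using 1
      funext γ
      change algebraMap R A (((φ γ)⁻¹ : GL (Fin n) R).1 i j) = _
      rw [hinv]
  | algebraMap r => exact const_mem_OA ρ r
  | add x y _ _ hx hy =>
    have h2 := (OA ρ).add_mem hx hy
    convert h2 using 1
    funext γ
    rw [Pi.add_apply, map_add]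
    rfl
  | mul x y _ _ hx hy =>
    have h2 := OA_mul hx hy
    convert h2 using 1
    funext γ
    rw [Pi.mul_apply, map_mul]
    rfl

end free

section final

variable {k R E A Γ : Type} [Field k] [CommRing R] [IsDomain R] [Algebra k R]
  [Field E] [Algebra R E] [IsFractionRing R E] [Algebra k E] [IsScalarTower k R E]
  [CommRing A] [IsDomain A] [Algebra R A] [Algebra k A] [IsScalarTower k R A] [FaithfulSMul R A]
  [Group Γ] [Finite Γ] [MulSemiringAction Γ A] [SMulCommClass Γ R A]

/-- The quotient has a resolution. -/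
theorem resolvable (p : ℕ) [Fact p.Prime] [PerfectField k] [CharP k p]
    [Algebra.FiniteType k R] (hLM : Pool.Agent.W418.LCI.HasLM k E) [Algebra.Smooth R A]
    {n : ℕ} (φ : Γ →* GL (Fin n) R) (hφ : Function.Injective φ)
    (hact : ∀ a : A, ∃ P : MvPolynomial (Fin n × Fin n) A, ∀ γ : Γ,
      γ • a = P.eval fun q => algebraMap R A ((φ γ : Matrix (Fin n) (Fin n) R) q.1 q.2))
    (hfree : ∀ i j, ∃ (m : ℕ) (x y : Fin m → A), ∀ γ : Γ,
      algebraMap R A ((φ γ : Matrix (Fin n) (Fin n) R) i j) = ∑ l, x l * (γ • y l)) :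
    Pool.Agent.W558.IsResolvableVariety
      (X := Spec (CommRingCat.of (FixedPoints.subalgebra R A Γ)))
      (Spec.map (CommRingCat.ofHom (algebraMap k (FixedPoints.subalgebra R A Γ)))) := by
  classical
  have := Fintype.ofFinite Γ
  let ρ : Γ →* (A ≃ₐ[R] A) := MulSemiringAction.toAlgAut Γ R A
  have hρ : ∀ γ a, ρ γ a = γ • a := fun _ _ => rfl
  let A0 := FixedPoints.subalgebra R A Γ
  have hinv0 : Algebra.IsInvariant A0 A Γ := ⟨fun b hb => ⟨⟨b, hb⟩, rfl⟩⟩
  have hint : Algebra.IsIntegral A0 A := Algebra.IsInvariant.isIntegral A0 A Γ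
  have hAft : Algebra.FiniteType k A := Algebra.FiniteType.trans (S := R) inferInstance inferInstance
  have hinj : Function.Injective (algebraMap A0 A) := Subtype.val_injective
  have hFF : FaithfulSMul A0 A := (faithfulSMul_iff_algebraMap_injective _ _).2 hinj
  have hT : IsScalarTower k A0 A := IsScalarTower.of_algebraMap_eq fun _ => rfl
  have hft0 : Algebra.FiniteType A0 A := Algebra.FiniteType.of_restrictScalars_finiteType k A0 A
  have hfin : Module.Finite A0 A := Algebra.IsIntegral.finite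
  have hFT : Algebra.FiniteType k A0 := ⟨fg_of_fg_of_fg k A0 A hAft.1 hfin.1 hinj⟩
  refine Pool.Agent.W558.isResolvableVariety_spec ?_
  refine hasResolution (A0 := A0) ρ p hLM (HG φ) (HG_fg φ) (HG_inv φ) (HG_cop φ)
    (HG_sep φ hφ) ?_ ?_ ?_
  · intro a
    obtain ⟨P, hP⟩ := hact a
    refine orbit_mem φ ρ a ⟨MvPolynomial.rename Sum.inl P, fun γ => ?_⟩
    rw [MvPolynomial.eval_rename]
    exact hP γ
  · refine HG_mem_OA' φ ρ fun i j => ?_
    obtain ⟨m, x, y, hxy⟩ := hfree i j
    have h1 : (fun γ => algebraMap R A (ent φ i j γ)) = ∑ l, x l • (fun γ => ρ γ (y l)) := by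
      funext γ
      rw [Finset.sum_apply]
      exact hxy γ
    rw [h1]
    exact Submodule.sum_mem _ fun l _ => Submodule.smul_mem _ _ (Submodule.subset_span ⟨_, rfl⟩)
  · intro a
    constructor
    · intro ha
      exact ⟨⟨a, ha⟩, rfl⟩
    · rintro ⟨c, rfl⟩ γ
      exact c.2 γ

end final

end Pool.Agent.K6.H44.QG
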