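import Pool.Agent.K6.H44.QG.Frob
import Pool.Agent.N864.GT.Sm

/-!
Descent of smoothness along finite flat ring extensions, over perfect fields of characteristic `p`.
-/

set_option autoImplicit false

namespace Pool.Agent.K6.H44.QG

open Module IsLocalRing

/-- Incomparability. -/
lemma eq_of_comap_eq {C A : Type*} [CommRing C] [CommRing A] [Algebra C A]
    [Algebra.IsIntegral C A] {P Q : Ideal A} [P.IsPrime] (hPQ : P ≤ Q)
    (h : P.comap (algebraMap C A) = Q.comap (algebraMap C A)) : P = Q := by
  by_contra hne
  exact (Ideal.IsIntegral.comap_lt_comap (R := C) (lt_of_le_of_ne hPQ hne)).ne h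

lemma height_le {C A : Type*} [CommRing C] [CommRing A] [Algebra C A]
    [Algebra.IsIntegral C A] (P : Ideal A) [P.IsPrime] :
    P.height ≤ (P.comap (algebraMap C A)).height := by
  let x : PrimeSpectrum A := ⟨P, inferInstance⟩
  have h1 := PrimeSpectrum.height_eq_orderHeight x
  have h2 := PrimeSpectrum.height_eq_orderHeight (PrimeSpectrum.comap (algebraMap C A) x)
  have h3 : StrictMono (PrimeSpectrum.comap (algebraMap C A)) := by
    intro y z hyz
    rw [← PrimeSpectrum.asIdeal_lt_asIdeal] at hyz ⊢
    exact Ideal.IsIntegral.comap_lt_comap (R := C) hyz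
  have h4 := Order.height_le_height_apply_of_strictMono _ h3 x
  rw [← h1, ← h2] at h4
  exact h4

/-- The fibres are artinian. -/
lemma length_fib {C A : Type*} [CommRing C] [CommRing A] [Algebra C A] [Algebra.IsIntegral C A]
    [IsNoetherianRing A] (P : Ideal A) [P.IsPrime] (J : Ideal (Localization.AtPrime P))
    (hJ : ∀ x ∈ P.comap (algebraMap C A), algebraMap A (Localization.AtPrime P)
      (algebraMap C A x) ∈ J) : length (Localization.AtPrime P) (Localization.AtPrime P ⧸ J) ≠ ⊤ := by
  have hN : IsNoetherianRing (Localization.AtPrime P) :=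
    IsLocalization.isNoetherianRing P.primeCompl _ inferInstance
  have h0 : Ring.KrullDimLE 0 (Localization.AtPrime P ⧸ J) := by
    refine Ring.KrullDimLE.mk₀ fun I hI => ?_
    have h1 : (I.comap (Ideal.Quotient.mk J)).IsPrime := Ideal.IsPrime.comap _
    have h2 : J ≤ I.comap (Ideal.Quotient.mk J) := by
      intro x hx
      rw [Ideal.mem_comap, Ideal.Quotient.eq_zero_iff_mem.2 hx]
      exact I.zero_mem
    have h3 : (I.comap (Ideal.Quotient.mk J)).comap (algebraMap A _) = P := by
      refine eq_of_comap_eq (C := C) ?_ ?_
      · intro x hx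
        by_contra h
        have h4 : IsUnit (algebraMap A (Localization.AtPrime P) x) :=
          IsLocalization.map_units _ (⟨x, h⟩ : P.primeCompl)
        exact h1.ne_top (Ideal.eq_top_of_isUnit_mem _ hx h4)
      · apply le_antisymm
        · intro x hx
          rw [Ideal.mem_comap] at hx ⊢
          by_contra h
          have h4 : IsUnit (algebraMap A (Localization.AtPrime P) (algebraMap C A x)) :=
            IsLocalization.map_units _ (⟨algebraMap C A x, h⟩ : P.primeCompl)
          exact h1.ne_top (Ideal.eq_top_of_isUnit_mem _ hx h4)
        · intro x hx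
          exact h2 (hJ x hx)
    have h4 : maximalIdeal (Localization.AtPrime P) ≤ I.comap (Ideal.Quotient.mk J) := by
      rw [← Localization.AtPrime.map_eq_maximalIdeal, Ideal.map_le_iff_le_comap, h3]
    have h5 : I.comap (Ideal.Quotient.mk J) = maximalIdeal (Localization.AtPrime P) :=
      le_antisymm (IsLocalRing.le_maximalIdeal h1.ne_top) h4
    have h6 : (I.comap (Ideal.Quotient.mk J)).IsMaximal := by
      rw [h5]; exact maximalIdeal.isMaximal _
    rcases Ideal.map_eq_top_or_isMaximal_of_surjective (Ideal.Quotient.mk J)
      Ideal.Quotient.mk_surjective h6 with h7 | h7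
    · rw [Ideal.map_comap_of_surjective _ Ideal.Quotient.mk_surjective] at h7
      exact absurd h7 hI.ne_top
    · rwa [Ideal.map_comap_of_surjective _ Ideal.Quotient.mk_surjective] at h7
  have hA : IsArtinianRing (Localization.AtPrime P ⧸ J) :=
    (isArtinianRing_iff_krullDimLE_zero).2 h0
  rw [Module.length_ne_top_iff, isFiniteLength_iff_isNoetherian_isArtinian]
  refine ⟨inferInstance, ?_⟩
  exact isArtinian_of_surjective_algebraMap (R := Localization.AtPrime P ⧸ J)
    Ideal.Quotient.mk_surjective

/-- Descent of smoothness. -/
theorem smooth_of_flat (p : ℕ) [Fact p.Prime] {k C A : Type} [Field k] [PerfectField k] [CharP k p]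
    [CommRing C] [CommRing A] [Algebra k C] [Algebra k A] [Algebra C A] [IsScalarTower k C A]
    [Algebra.FiniteType k C] [Algebra.Smooth k A] [Algebra.IsIntegral C A] [Module.Flat C A]
    [FaithfulSMul C A] : Algebra.Smooth k C := by
  have hCN : IsNoetherianRing C := Algebra.FiniteType.isNoetherianRing k C
  have hAN : IsNoetherianRing A := Algebra.FiniteType.isNoetherianRing k A
  have hreg : IsRegularRing C := by
    refine isRegularRing_iff.2 fun q hq => ?_
    obtain ⟨P, -, hP, hPq⟩ := Ideal.exists_ideal_over_prime_of_isIntegral (S := A) q ⊥ (by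
      rw [← RingHom.ker_eq_comap_bot, (RingHom.injective_iff_ker_eq_bot _).1
        (FaithfulSMul.algebraMap_injective C A)]
      exact bot_le)
    have hn : IsNoetherianRing (Localization.AtPrime q) :=
      IsLocalization.isNoetherianRing q.primeCompl _ inferInstance
    let f := Localization.localRingHom q P (algebraMap C A) hPq.symm
    have hf : f.Flat := RingHom.Flat.localRingHom (f := algebraMap C A)
      (by rw [RingHom.flat_algebraMap_iff]; infer_instance) P q hPq.symm
    let _ : Algebra (Localization.AtPrime q) (Localization.AtPrime P) := f.toAlgebra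
    have h1 : Module.Flat (Localization.AtPrime q) (Localization.AtPrime P) := hf
    have h2 : IsLocalHom (algebraMap (Localization.AtPrime q) (Localization.AtPrime P)) :=
      inferInstanceAs (IsLocalHom (Localization.localRingHom q P (algebraMap C A) hPq.symm))
    have h3 : CharP (Localization.AtPrime P) p :=
      charP_of_injective_algebraMap (algebraMap k _).injective p
    have h4 : Module.Flat (Localization.AtPrime P) (Fr p (Localization.AtPrime P)) :=
      flat_smooth (k := k) p P
    have h5 : IsRegularLocalRing (Localization.AtPrime P) :=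
      Pool.Agent.H920R2.regular_of_smooth (k := k) P
    refine regular_of_flat (p := p) (a := Localization.AtPrime P) ?_ ?_
    · refine length_fib (C := C) P _ fun x hx => ?_
      rw [hPq] at hx
      have h6 : algebraMap (Localization.AtPrime q) (Localization.AtPrime P)
          (algebraMap C (Localization.AtPrime q) x) =
          algebraMap A (Localization.AtPrime P) (algebraMap C A x) :=
        Localization.localRingHom_to_map q P (algebraMap C A) hPq.symm x
      rw [← h6]
      refine Ideal.mem_map_of_mem _ ?_
      rw [← Localization.AtPrime.map_eq_maximalIdeal]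
      exact Ideal.mem_map_of_mem _ hx
    · rw [IsLocalization.AtPrime.ringKrullDim_eq_height P (Localization.AtPrime P),
        IsLocalization.AtPrime.ringKrullDim_eq_height q (Localization.AtPrime q)]
      have h7 := height_le (C := C) P
      rw [hPq] at h7
      exact_mod_cast h7
  exact Pool.Agent.N864.GT.smooth_of_regular

end Pool.Agent.K6.H44.QG
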