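import Pool.Agent.K6.H44.QG.Gl
import Pool.Agent.K6.H44.QG.Desc

/-!
Base changes of smooth families inside the function field, and their invariants.
-/

set_option autoImplicit false
set_option linter.unusedSectionVars false

namespace Pool.Agent.K6.H44.QG

open TensorProduct

section bs

variable (k : Type) {R E A : Type} (K : Type) [Field k] [CommRing R] [IsDomain R] [Algebra k R]
  [Field E] [Algebra R E] [IsFractionRing R E] [Algebra k E] [IsScalarTower k R E]
  [CommRing A] [IsDomain A] [Algebra R A] [Algebra k A] [IsScalarTower k R A] [FaithfulSMul R A]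
  [Field K] [Algebra A K] [IsFractionRing A K] [Algebra R K] [IsScalarTower R A K]
  [Algebra E K] [IsScalarTower R E K] [Algebra k K] [IsScalarTower k R K]

/-- The map from the base change to the function field. -/
noncomputable def mu (A : Type) [CommRing A] [Algebra R A] (K : Type) [Field K] [Algebra A K]
    [Algebra R K] [IsScalarTower R A K] [Algebra E K] [IsScalarTower R E K]
    (S : Subalgebra R E) : S ⊗[R] A →ₐ[R] K :=
  Algebra.TensorProduct.productMap ((IsScalarTower.toAlgHom R E K).comp S.val)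
    (IsScalarTower.toAlgHom R A K)

omit [IsDomain R] [IsFractionRing R E] [IsDomain A] [FaithfulSMul R A] [IsFractionRing A K] in
lemma mu_tmul (S : Subalgebra R E) (s : S) (a : A) :
    mu A K S (s ⊗ₜ a) = algebraMap E K s * algebraMap A K a := rfl

lemma exists_smul (S : Subalgebra R E) (z : S ⊗[R] A) :
    ∃ r : R, r ∈ nonZeroDivisors R ∧ ∃ a : A, r • z = 1 ⊗ₜ a := by
  induction z using TensorProduct.induction_on with
  | zero => exact ⟨1, one_mem _, 0, by rw [smul_zero, tmul_zero]⟩
  | tmul s a =>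
    obtain ⟨x, y, hy, hxy⟩ := IsFractionRing.div_surjective R (s : E)
    refine ⟨y, hy, x • a, ?_⟩
    have hy0 : algebraMap R E y ≠ 0 := IsFractionRing.to_map_ne_zero_of_mem_nonZeroDivisors hy
    have h1 : y • s = x • (1 : S) := by
      apply Subtype.ext
      change y • (s : E) = x • (1 : E)
      rw [Algebra.smul_def, Algebra.smul_def, mul_one, ← hxy, mul_div_cancel₀ _ hy0]
    rw [smul_tmul', h1, smul_tmul]
  | add z w hz hw =>
    obtain ⟨r, hr, a, ha⟩ := hz
    obtain ⟨r', hr', a', ha'⟩ := hw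
    refine ⟨r * r', mul_mem hr hr', r' • a + r • a', ?_⟩
    rw [smul_add, mul_comm r r', mul_smul, ha, mul_comm r' r, mul_smul, ha', tmul_add,
      tmul_smul, tmul_smul]

lemma mu_injective [Module.Flat R A] (S : Subalgebra R E) : Function.Injective (mu A K S) := by
  rw [injective_iff_map_eq_zero]
  intro z hz
  obtain ⟨r, hr, a, ha⟩ := exists_smul S z
  have h1 : mu A K S (r • z) = 0 := by rw [map_smul, hz, smul_zero]
  rw [ha, mu_tmul] at h1
  have h2 : algebraMap A K a = 0 := by
    simpa using h1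
  have h3 : a = 0 := (IsFractionRing.injective A K) (by rw [h2, map_zero])
  rw [h3, tmul_zero] at ha
  have h4 : Function.Injective ((r • (LinearMap.id : S →ₗ[R] S))) := by
    intro s t hst
    apply Subtype.ext
    have h5 : r • (s : E) = r • (t : E) := congrArg Subtype.val hst
    rw [Algebra.smul_def, Algebra.smul_def] at h5
    exact mul_left_cancel₀ (IsFractionRing.to_map_ne_zero_of_mem_nonZeroDivisors hr) h5
  have h5 := Module.Flat.rTensor_preserves_injective_linearMap (M := A) _ h4
  apply h5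
  rw [map_zero, LinearMap.rTensor_smul, LinearMap.rTensor_id]
  exact ha

/-- The base change as a subalgebra of the function field. -/
noncomputable def BB (A : Type) [CommRing A] [Algebra R A] [Algebra k A] [IsScalarTower k R A]
    (K : Type) [Field K] [Algebra A K]
    [Algebra R K] [IsScalarTower R A K] [Algebra E K] [IsScalarTower R E K] [Algebra k K]
    [IsScalarTower k R K] (S : Subalgebra R E) : Subalgebra k K :=
  ((mu A K S).restrictScalars k).range

omit [IsDomain R] [IsFractionRing R E] [IsDomain A] [FaithfulSMul R A] [IsFractionRing A K] in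
lemma mem_BB {S : Subalgebra R E} {x : K} : x ∈ BB k A K S ↔ ∃ z, mu A K S z = x := Iff.rfl

omit [IsDomain R] [IsFractionRing R E] [IsDomain A] [FaithfulSMul R A] [IsFractionRing A K] in
lemma BB_E {S : Subalgebra R E} {s : E} (hs : s ∈ S) : algebraMap E K s ∈ BB k A K S := by
  refine (mem_BB k K).2 ⟨⟨s, hs⟩ ⊗ₜ 1, ?_⟩
  rw [mu_tmul, map_one, mul_one]

omit [IsDomain R] [IsFractionRing R E] [IsDomain A] [FaithfulSMul R A] [IsFractionRing A K] in
lemma BB_A (S : Subalgebra R E) (a : A) : algebraMap A K a ∈ BB k A K S := by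
  refine (mem_BB k K).2 ⟨1 ⊗ₜ a, ?_⟩
  rw [mu_tmul]
  simp

omit [IsDomain R] [IsFractionRing R E] [IsDomain A] [FaithfulSMul R A] [IsFractionRing A K] in
/-- Induction. -/
lemma BB_induction {S : Subalgebra R E} {x : K} (hx : x ∈ BB k A K S) (P : K → Prop)
    (h : ∀ s ∈ S, ∀ a : A, P (algebraMap E K s * algebraMap A K a))
    (hadd : ∀ x y, P x → P y → P (x + y)) : P x := by
  obtain ⟨z, rfl⟩ := (mem_BB k K).1 hx
  induction z using TensorProduct.induction_on with
  | zero =>
    have h1 := h 0 S.zero_mem 0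
    rw [map_zero, zero_mul] at h1
    rwa [map_zero]
  | tmul s a => exact h s s.2 a
  | add z w hz hw =>
    rw [map_add]
    exact hadd _ _ (hz ⟨z, rfl⟩) (hw ⟨w, rfl⟩)

/-- Smoothness of the base change. -/
lemma BB_smooth [Algebra.Smooth R A] (S : Subalgebra R E) [Algebra.Smooth k S] :
    Algebra.Smooth k (BB k A K S) := by
  have h1 : Algebra.Smooth S (S ⊗[R] A) := inferInstance
  have h2 : Algebra.Smooth k (S ⊗[R] A) := Algebra.Smooth.comp k S (S ⊗[R] A)
  have h3 : Function.Injective ((mu A K S).restrictScalars k) := mu_injective K S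
  exact Algebra.Smooth.of_equiv (AlgEquiv.ofInjective _ h3)

variable {Γ : Type} [Group Γ] (ρ : Γ →* (A ≃ₐ[R] A))

/-- The action on the function field. -/
noncomputable def sg (E : Type) [Field E] [Algebra R E] [IsFractionRing R E]
    (K : Type) [Field K] [Algebra A K] [IsFractionRing A K] [Algebra R K] [IsScalarTower R A K]
    [Algebra E K] [IsScalarTower R E K] : Γ →* (K ≃ₐ[E] K) :=
  (IsFractionRing.fieldEquivOfAlgEquivHom (A := R) (B := A) E K).comp ρ

lemma sg_A (γ : Γ) (a : A) : sg ρ E K γ (algebraMap A K a) = algebraMap A K (ρ γ a) :=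
  IsFractionRing.fieldEquivOfAlgEquiv_algebraMap E K K (ρ γ) a

lemma sg_E (γ : Γ) (s : E) : sg ρ E K γ (algebraMap E K s) = algebraMap E K s :=
  (sg ρ E K γ).commutes s

lemma sg_BB {S : Subalgebra R E} {x : K} (hx : x ∈ BB k A K S) (γ : Γ) :
    sg ρ E K γ x ∈ BB k A K S := by
  refine BB_induction k K hx (fun x => sg ρ E K γ x ∈ BB k A K S) ?_ ?_
  · intro s hs a
    rw [map_mul, sg_A, sg_E]
    exact (BB k A K S).mul_mem (BB_E k K hs) (BB_A k K S _)
  · intro x y hx hy
    rw [map_add]
    exact (BB k A K S).add_mem hx hy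

/-- The invariants of the base change. -/
noncomputable def CC (S : Subalgebra R E) : Subalgebra k K where
  carrier := {x | x ∈ BB k A K S ∧ ∀ γ, sg ρ E K γ x = x}
  mul_mem' := fun ha hb => ⟨(BB k A K S).mul_mem ha.1 hb.1, fun γ => by
    rw [map_mul, ha.2, hb.2]⟩
  add_mem' := fun ha hb => ⟨(BB k A K S).add_mem ha.1 hb.1, fun γ => by
    rw [map_add, ha.2, hb.2]⟩
  algebraMap_mem' := fun c => ⟨(BB k A K S).algebraMap_mem c, fun γ => by
    rw [IsScalarTower.algebraMap_apply k R K, IsScalarTower.algebraMap_apply R E K, sg_E]⟩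

lemma mem_CC {S : Subalgebra R E} {x : K} :
    x ∈ CC k K ρ S ↔ x ∈ BB k A K S ∧ ∀ γ, sg ρ E K γ x = x := Iff.rfl

lemma CC_le (S : Subalgebra R E) : CC k K ρ S ≤ BB k A K S := fun _ hx => hx.1

/-- The action on the base change. -/
noncomputable def sB (S : Subalgebra R E) : Γ →* (BB k A K S ≃+* BB k A K S) where
  toFun γ :=
    { toFun := fun x => ⟨sg ρ E K γ x, sg_BB k K ρ x.2 γ⟩
      invFun := fun x => ⟨sg ρ E K γ⁻¹ x, sg_BB k K ρ x.2 γ⁻¹⟩
      left_inv := fun x => by
        apply Subtype.ext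
        change (sg ρ E K γ⁻¹) ((sg ρ E K γ) x) = x
        rw [← AlgEquiv.mul_apply, ← map_mul, inv_mul_cancel, map_one]
        rfl
      right_inv := fun x => by
        apply Subtype.ext
        change (sg ρ E K γ) ((sg ρ E K γ⁻¹) x) = x
        rw [← AlgEquiv.mul_apply, ← map_mul, mul_inv_cancel, map_one]
        rfl
      map_mul' := fun x y => Subtype.ext (map_mul (sg ρ E K γ) (x : K) y)
      map_add' := fun x y => Subtype.ext (map_add (sg ρ E K γ) (x : K) y) }
  map_one' := by
    ext x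
    change sg ρ E K 1 x = x
    rw [map_one]
    rfl
  map_mul' γ γ' := by
    ext x
    change sg ρ E K (γ * γ') x = sg ρ E K γ (sg ρ E K γ' x)
    rw [map_mul]
    rfl

lemma sB_coe (S : Subalgebra R E) (γ : Γ) (x : BB k A K S) :
    ((sB k K ρ S γ x : BB k A K S) : K) = sg ρ E K γ x := rfl

/-- The smoothness of the invariants of the base change. -/
theorem CC_smooth (p : ℕ) [Fact p.Prime] [PerfectField k] [CharP k p] [Algebra.Smooth R A]
    [Fintype Γ] [DecidableEq Γ]
    (H : Subalgebra R (Γ → R)) (hco : ∀ a, (fun γ => ρ γ a) ∈ HA A H)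
    (hfr : ∀ h ∈ H, (fun γ => algebraMap R A (h γ)) ∈ OA ρ) (S : Subalgebra R E)
    [Algebra.Smooth k S] (d : E) (hdS : d ∈ S) (hd0 : d ≠ 0)
    (hd1 : ∀ f ∈ H, ∃ c ∈ S, ∑ γ, algebraMap R E (f γ) = d * c)
    (hd2 : ∃ (n : ℕ) (s : Fin n → E) (f : Fin n → Γ → R), (∀ j, s j ∈ S) ∧ (∀ j, f j ∈ H) ∧
      ∀ γ, ∑ j, s j * algebraMap R E (f j γ) = if γ = 1 then d else 0) :
    Algebra.Smooth k (CC k K ρ S) := by
  have hBs : Algebra.Smooth k (BB k A K S) := BB_smooth k K S
  have hRA : ∀ r, algebraMap A K (algebraMap R A r) = algebraMap E K (algebraMap R E r) := by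
    intro r
    rw [← IsScalarTower.algebraMap_apply, ← IsScalarTower.algebraMap_apply]
  let _ : Algebra (CC k K ρ S) (BB k A K S) := (Subalgebra.inclusion (CC_le k K ρ S)).toAlgebra
  have hT : IsScalarTower k (CC k K ρ S) (BB k A K S) := IsScalarTower.of_algebraMap_eq fun _ => rfl
  have hinj : Function.Injective (algebraMap (CC k K ρ S) (BB k A K S)) :=
    Subalgebra.inclusion_injective _
  let D : BB k A K S := ⟨algebraMap E K d, BB_E k K hdS⟩
  have hD0 : (D : K) ≠ 0 := (map_ne_zero _).2 hd0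
  -- the trace
  have htr0 : ∀ x : K, x ∈ BB k A K S → ∃ t ∈ BB k A K S, ∑ γ, sg ρ E K γ x = D * t := by
    intro x hx
    refine BB_induction k K hx (fun x => ∃ t ∈ BB k A K S, ∑ γ, sg ρ E K γ x = D * t) ?_ ?_
    · intro s hs a
      obtain ⟨m, y, h, hh, hy⟩ := HA_exists (hco a)
      choose c hcS hc using fun j => hd1 (h j) (hh j)
      refine ⟨algebraMap E K s * ∑ j, algebraMap A K (y j) * algebraMap E K (c j),
        (BB k A K S).mul_mem (BB_E k K hs) ((BB k A K S).sum_mem fun j _ =>
          (BB k A K S).mul_mem (BB_A k K S _) (BB_E k K (hcS j))), ?_⟩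
      have h1 : ∀ γ, sg ρ E K γ (algebraMap E K s * algebraMap A K a) =
          algebraMap E K s * ∑ j, algebraMap A K (y j) *
            algebraMap E K (algebraMap R E (h j γ)) := by
        intro γ
        rw [map_mul, sg_A, sg_E]
        have h2 : ρ γ a = ∑ j, y j * algebraMap R A (h j γ) := hy γ
        rw [h2, map_sum]
        congr 1
        refine Finset.sum_congr rfl fun j _ => ?_
        rw [map_mul, hRA]
      simp only [h1]
      rw [← Finset.mul_sum, mul_left_comm]
      congr 1
      rw [Finset.sum_comm, Finset.mul_sum]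
      refine Finset.sum_congr rfl fun j _ => ?_
      rw [← Finset.mul_sum, mul_left_comm]
      congr 1
      change _ = algebraMap E K d * _
      rw [← map_mul, ← hc, map_sum]
    · rintro x y ⟨t, ht, hxt⟩ ⟨u, hu, hyu⟩
      refine ⟨t + u, (BB k A K S).add_mem ht hu, ?_⟩
      rw [mul_add, ← hxt, ← hyu, ← Finset.sum_add_distrib]
      exact Finset.sum_congr rfl fun γ _ => map_add _ _ _
  have hcoe : ∀ (x : Γ → BB k A K S), ((∑ γ, x γ : BB k A K S) : K) = ∑ γ, (x γ : K) := by
    intro x
    exact map_sum (BB k A K S).val _ _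
  have htr : ∀ a : BB k A K S, ∃ t, ∑ γ, sB k K ρ S γ a = D * t := by
    intro a
    obtain ⟨t, ht, h⟩ := htr0 a a.2
    refine ⟨⟨t, ht⟩, Subtype.ext ?_⟩
    rw [hcoe]
    exact h
  -- the free action
  obtain ⟨m, s, f, hs, hf, hsf⟩ := hd2
  choose m' x y hxy using fun j => OA_exists (hfr (f j) (hf j))
  obtain ⟨ε⟩ : Nonempty ((Σ j, Fin (m' j)) ≃ Fin (Fintype.card (Σ j, Fin (m' j)))) :=
    ⟨Fintype.equivFin _⟩
  let X : Fin (Fintype.card (Σ j, Fin (m' j))) → BB k A K S := fun l =>
    ⟨algebraMap E K (s (ε.symm l).1), BB_E k K (hs _)⟩ *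
      ⟨algebraMap A K (x (ε.symm l).1 (ε.symm l).2), BB_A k K S _⟩
  let Y : Fin (Fintype.card (Σ j, Fin (m' j))) → BB k A K S := fun l =>
    ⟨algebraMap A K (y (ε.symm l).1 (ε.symm l).2), BB_A k K S _⟩
  have hXY : ∀ γ, ∑ l, X l * sB k K ρ S γ (Y l) = if γ = 1 then D else 0 := by
    intro γ
    apply Subtype.ext
    have h1 : ((∑ l, X l * sB k K ρ S γ (Y l) : BB k A K S) : K) =
        ∑ l, (X l : K) * sg ρ E K γ (Y l) := map_sum (BB k A K S).val _ _
    have h2 : (((if γ = 1 then D else 0 : BB k A K S)) : K) =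
        algebraMap E K (if γ = 1 then d else 0) := by
      split_ifs
      · rfl
      · rw [map_zero]
        rfl
    rw [h1, h2, ← hsf γ, map_sum]
    have h3 : ∀ l, (X l : K) * sg ρ E K γ (Y l) =
        (fun q : (Σ j, Fin (m' j)) => algebraMap E K (s q.1) * (algebraMap A K (x q.1 q.2) *
          algebraMap A K (ρ γ (y q.1 q.2)))) (ε.symm l) := by
      intro l
      have h4 : sg ρ E K γ (Y l : K) = algebraMap A K (ρ γ (y (ε.symm l).1 (ε.symm l).2)) :=
        sg_A K ρ γ _
      rw [h4]
      exact mul_assoc _ _ _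
    simp only [h3]
    rw [ε.symm.sum_comp (fun q : (Σ j, Fin (m' j)) => algebraMap E K (s q.1) *
      (algebraMap A K (x q.1 q.2) * algebraMap A K (ρ γ (y q.1 q.2)))), Fintype.sum_sigma]
    refine Finset.sum_congr rfl fun j _ => ?_
    change ∑ l, algebraMap E K (s j) * (algebraMap A K (x j l) *
      algebraMap A K (ρ γ (y j l))) = _
    rw [← Finset.mul_sum, map_mul]
    congr 1
    rw [← hRA, hxy j γ, map_sum]
    exact Finset.sum_congr rfl fun l _ => (map_mul _ _ _).symm
  obtain ⟨h1, h2⟩ := projective_of_trace (C := CC k K ρ S) (sB k K ρ S) hinj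
    (fun c γ => Subtype.ext (c.2.2 γ))
    (fun a ha => ⟨⟨a, a.2, fun γ => congrArg Subtype.val (ha γ)⟩, rfl⟩) D
    (fun a b hab => by
      apply Subtype.ext
      have h := congrArg Subtype.val hab
      exact mul_left_cancel₀ hD0 h)
    (fun γ => Subtype.ext (sg_E K ρ γ d)) htr X Y hXY
  have hFT : Algebra.FiniteType k (CC k K ρ S) := by
    refine ⟨fg_of_fg_of_fg k (CC k K ρ S) (BB k A K S) ?_ h2.1 hinj⟩
    have h3 : Algebra.FiniteType k (BB k A K S) := inferInstance
    exact h3.1
  have hFF : FaithfulSMul (CC k K ρ S) (BB k A K S) :=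
    (faithfulSMul_iff_algebraMap_injective _ _).2 hinj
  exact smooth_of_flat p (k := k) (C := CC k K ρ S) (A := BB k A K S)

end bs

end Pool.Agent.K6.H44.QG
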