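import Pool.Agent.K6.H44.QG.Reg
import Pool.Agent.H920R2.Sr1

/-!
The Frobenius endomorphism of a smooth algebra over a perfect field is flat.
-/

set_option autoImplicit false

namespace Pool.Agent.K6.H44.QG

open Polynomial TensorProduct

lemma flat_congr {p : ℕ} {R S : Type*} [CommRing R] [CommRing S] [ExpChar R p] [ExpChar S p]
    (e : R ≃+* S) (h : (frobenius R p).Flat) : (frobenius S p).Flat := by
  have h1 : frobenius S p = (e : R →+* S).comp ((frobenius R p).comp (e.symm : S →+* R)) := by
    ext x
    simp [frobenius_def]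
  rw [h1]
  exact ((RingHom.Flat.of_bijective e.symm.bijective).comp h).comp
    (RingHom.Flat.of_bijective e.bijective)

/-- A finite ring extension with a basis is flat. -/
lemma flat_of_basis {A B ι : Type*} [CommRing A] [CommRing B] [Fintype ι] (f : A →+* B) (b : ι → B)
    (h : Function.Bijective fun v : ι → A => ∑ i, f (v i) * b i) : f.Flat := by
  classical
  let _ : Algebra A B := f.toAlgebra
  let F : (ι → A) →ₗ[A] B :=
    { toFun := fun v => ∑ i, f (v i) * b i
      map_add' := fun v w => by
        rw [← Finset.sum_add_distrib]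
        refine Finset.sum_congr rfl fun i _ => ?_
        rw [Pi.add_apply, map_add, add_mul]
      map_smul' := fun r v => by
        rw [RingHom.id_apply, Finset.smul_sum]
        refine Finset.sum_congr rfl fun i _ => ?_
        rw [Pi.smul_apply, smul_eq_mul, map_mul, Algebra.smul_def, mul_assoc]
        rfl }
  exact Module.Flat.of_linearEquiv (LinearEquiv.ofBijective F h).symm

lemma flat_expand (R : Type*) [CommRing R] (p : ℕ) (hp : 0 < p) :
    (expand R p).toRingHom.Flat := by
  have hco : ∀ (v : Fin p → R[X]) (i : Fin p) (n : ℕ),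
      (∑ j, expand R p (v j) * X ^ (j : ℕ)).coeff (p * n + i) = (v i).coeff n := by
    intro v i n
    rw [finsetSum_coeff, Finset.sum_eq_single i]
    · rw [coeff_mul_X_pow, mul_comm p n, coeff_expand_mul hp]
    · intro j _ hj
      rw [coeff_mul_X_pow']
      split_ifs with h
      · rw [coeff_expand hp, if_neg]
        intro hd
        apply hj
        have h1 : (p * n + (i : ℕ)) % p = (j : ℕ) % p := by
          have h2 : (j : ℕ) ≡ p * n + i [MOD p] := (Nat.modEq_iff_dvd' h).2 hd
          exact h2.symm
        rw [Nat.mul_add_mod, Nat.mod_eq_of_lt i.2, Nat.mod_eq_of_lt j.2] at h1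
        exact Fin.ext h1.symm
      · rfl
    · intro h
      exact absurd (Finset.mem_univ i) h
  refine flat_of_basis _ (fun i : Fin p => (X : R[X]) ^ (i : ℕ)) ⟨?_, ?_⟩
  · intro v w hvw
    funext i
    ext n
    have h1 := congrArg (fun f : R[X] => f.coeff (p * n + i)) hvw
    change (∑ j, expand R p (v j) * X ^ (j : ℕ)).coeff (p * n + i) =
      (∑ j, expand R p (w j) * X ^ (j : ℕ)).coeff (p * n + i) at h1
    rwa [hco, hco] at h1
  · intro f
    have hadd : ∀ f g : R[X], (∃ v : Fin p → R[X], ∑ i, (expand R p).toRingHom (v i) * X ^ (i : ℕ) = f) →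
        (∃ v : Fin p → R[X], ∑ i, (expand R p).toRingHom (v i) * X ^ (i : ℕ) = g) →
        ∃ v : Fin p → R[X], ∑ i, (expand R p).toRingHom (v i) * X ^ (i : ℕ) = f + g := by
      rintro _ _ ⟨v, rfl⟩ ⟨w, rfl⟩
      refine ⟨v + w, ?_⟩
      rw [← Finset.sum_add_distrib]
      refine Finset.sum_congr rfl fun i _ => ?_
      rw [Pi.add_apply, map_add, add_mul]
    change ∃ v : Fin p → R[X], ∑ i, (expand R p).toRingHom (v i) * X ^ (i : ℕ) = f
    induction f using Polynomial.induction_on' with
    | add f g hf hg => exact hadd f g hf hg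
    | monomial n r =>
      refine ⟨Pi.single ⟨n % p, Nat.mod_lt n hp⟩ (monomial (n / p) r), ?_⟩
      rw [Finset.sum_eq_single ⟨n % p, Nat.mod_lt n hp⟩]
      · rw [Pi.single_eq_same]
        change expand R p (monomial (n / p) r) * X ^ (n % p) = _
        rw [expand_monomial, monomial_mul_X_pow, Nat.div_add_mod']
      · intro j _ hj
        rw [Pi.single_eq_of_ne hj, map_zero, zero_mul]
      · intro h
        exact absurd (Finset.mem_univ _) h

lemma flat_mapRingHom {R S : Type*} [CommRing R] [CommRing S] (f : R →+* S) (hf : f.Flat) :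
    (mapRingHom f).Flat := by
  let _ : Algebra R S := f.toAlgebra
  have h1 : Module.Flat R S := hf
  let e : (R[X] ⊗[R] S) ≃ₐ[R] S[X] :=
    (Algebra.TensorProduct.comm R R[X] S).trans (polyEquivTensor R S).symm
  have h2 : mapRingHom f = (e : (R[X] ⊗[R] S) →+* S[X]).comp
      (algebraMap R[X] (R[X] ⊗[R] S)) := by
    refine RingHom.ext fun q => ?_
    change q.map f = (polyEquivTensor R S).symm (1 ⊗ₜ[R] q)
    rw [polyEquivTensor_symm_apply_tmul_eq_smul, one_smul]
    rfl
  rw [h2]
  have h3 : (algebraMap R[X] (R[X] ⊗[R] S)).Flat := by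
    rw [RingHom.flat_algebraMap_iff]
    infer_instance
  exact h3.comp (RingHom.Flat.of_bijective e.bijective)

lemma flat_poly {R : Type*} [CommRing R] (p : ℕ) [Fact p.Prime] [CharP R p]
    (h : (frobenius R p).Flat) : (frobenius R[X] p).Flat := by
  have h1 : frobenius R[X] p = (mapRingHom (frobenius R p)).comp (expand R p).toRingHom := by
    refine RingHom.ext fun q => ?_
    change q ^ p = (expand R p q).map (frobenius R p)
    rw [map_frobenius_expand]
  rw [h1]
  exact (flat_expand R p (Fact.out : p.Prime).pos).comp (flat_mapRingHom _ h)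

lemma flat_mvPoly (k : Type*) [Field k] (p : ℕ) [Fact p.Prime] [CharP k p] (n : ℕ) :
    (frobenius (MvPolynomial (Fin n) k) p).Flat := by
  induction n with
  | zero =>
    exact flat_congr (MvPolynomial.isEmptyAlgEquiv k (Fin 0)).symm.toRingEquiv
      (RingHom.Flat.of_isField (Field.toIsField k) _)
  | succ n ih =>
    exact flat_congr (MvPolynomial.finSuccEquiv k n).symm.toRingEquiv (flat_poly p ih)

/-- The Frobenius endomorphism of an étale algebra. -/
lemma flat_etale {P A : Type*} [CommRing P] [CommRing A] (p : ℕ) [Fact p.Prime] [CharP P p]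
    [CharP A p] [Algebra P A] [Algebra.Etale P A] (h : (frobenius P p).Flat) :
    (frobenius A p).Flat := by
  have hP : Module.Flat P (Fr p P) := h
  let _ : Algebra (Fr p P) (Fr p A) := inferInstanceAs (Algebra P A)
  have hE : Algebra.Etale (Fr p P) (Fr p A) := inferInstanceAs (Algebra.Etale P A)
  let _ : Algebra P (Fr p A) := ((algebraMap A (Fr p A)).comp (algebraMap P A)).toAlgebra
  have t1 : IsScalarTower P A (Fr p A) := IsScalarTower.of_algebraMap_eq fun x => rfl
  have t2 : IsScalarTower P (Fr p P) (Fr p A) := IsScalarTower.of_algebraMap_eq fun x => by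
    change algebraMap A (Fr p A) (algebraMap P A x) =
      toFr p A (algebraMap P A ((toFr p P).symm (algebraMap P (Fr p P) x)))
    rw [algebraMap_Fr, algebraMap_Fr]
    change (algebraMap P A x) ^ p = algebraMap P A (x ^ p)
    rw [map_pow]
  let ψ : (Fr p P ⊗[P] A) →ₐ[Fr p P] Fr p A :=
    Algebra.TensorProduct.lift (Algebra.ofId (Fr p P) (Fr p A))
      (IsScalarTower.toAlgHom P A (Fr p A)) (fun _ _ => Commute.all _ _)
  let _ : Algebra (Fr p P ⊗[P] A) (Fr p A) := ψ.toRingHom.toAlgebra
  have t3 : IsScalarTower (Fr p P) (Fr p P ⊗[P] A) (Fr p A) :=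
    IsScalarTower.of_algebraMap_eq fun x => (ψ.commutes x).symm
  have h1 : Algebra.Etale (Fr p P ⊗[P] A) (Fr p A) :=
    Algebra.Etale.of_restrictScalars (Fr p P) _ _
  have h2 : Module.Flat (Fr p P ⊗[P] A) (Fr p A) := inferInstance
  have h3 : ψ.toRingHom.Flat := h2
  have h4 : (Algebra.TensorProduct.includeRight : A →ₐ[P] Fr p P ⊗[P] A).toRingHom.Flat := by
    have h5 : (Algebra.TensorProduct.includeRight : A →ₐ[P] Fr p P ⊗[P] A).toRingHom =
        ((Algebra.TensorProduct.comm P A (Fr p P)) : (A ⊗[P] Fr p P) →+* Fr p P ⊗[P] A).comp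
          (algebraMap A (A ⊗[P] Fr p P)) := by
      refine RingHom.ext fun x => ?_
      rfl
    rw [h5]
    have h6 : (algebraMap A (A ⊗[P] Fr p P)).Flat := by
      rw [RingHom.flat_algebraMap_iff]
      infer_instance
    exact h6.comp (RingHom.Flat.of_bijective
      (Algebra.TensorProduct.comm P A (Fr p P)).bijective)
  have h7 := h4.comp h3
  have h8 : ψ.toRingHom.comp (Algebra.TensorProduct.includeRight :
      A →ₐ[P] Fr p P ⊗[P] A).toRingHom = algebraMap A (Fr p A) := by
    refine RingHom.ext fun x => ?_
    change ψ (1 ⊗ₜ[P] x) = _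
    simp [ψ]
  rw [h8] at h7
  exact h7

/-- The Frobenius endomorphism of a localization. -/
lemma flat_loc {A : Type*} [CommRing A] (p : ℕ) [Fact p.Prime] [CharP A p] (q : Ideal A)
    [q.IsPrime] [CharP (Localization.AtPrime q) p] (h : (frobenius A p).Flat) :
    (frobenius (Localization.AtPrime q) p).Flat := by
  have hq : q = q.comap (frobenius A p) := by
    ext x
    rw [Ideal.mem_comap, frobenius_def]
    constructor
    · intro hx
      exact Ideal.pow_mem_of_mem _ hx _ (Fact.out : p.Prime).pos
    · intro hx
      exact Ideal.IsPrime.mem_of_pow_mem ‹_› _ hx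
  have h1 := h.localRingHom q q hq
  have h2 : Localization.localRingHom q q (frobenius A p) hq =
      frobenius (Localization.AtPrime q) p := by
    refine Localization.localRingHom_unique q q (frobenius A p) hq fun x => ?_
    rw [frobenius_def, frobenius_def, map_pow]
  rwa [h2] at h1

/-- The Frobenius endomorphism of the local rings of a smooth algebra. -/
theorem flat_smooth {k A : Type} [Field k] [CommRing A] [Algebra k A] [Algebra.Smooth k A] (p : ℕ)
    [Fact p.Prime] [CharP k p] (q : Ideal A) [q.IsPrime] [CharP (Localization.AtPrime q) p] :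
    (frobenius (Localization.AtPrime q) p).Flat := by
  have hsm : Algebra.IsSmoothAt k q := inferInstance
  obtain ⟨f, hf, n, alg, tower, het⟩ :=
    Algebra.IsSmoothAt.exists_isStandardEtale_mvPolynomial (R := k) (S := A) (p := q)
  have het' : Algebra.Etale (MvPolynomial (Fin n) k) (Localization.Away f) := inferInstance
  have hQ : (Ideal.map (algebraMap A (Localization.Away f)) q).IsPrime :=
    IsLocalization.isPrime_of_isPrime_disjoint (.powers f) _ _ ‹_›
      ((Ideal.disjoint_powers_iff_notMem_of_isPrime _).mpr hf)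
  have : Nontrivial (Localization.Away f) := by
    refine ⟨⟨0, 1, fun h01 => hQ.ne_top ?_⟩⟩
    rw [Ideal.eq_top_iff_one, ← h01]
    exact Ideal.zero_mem _
  have c1 : CharP (Localization.Away f) p :=
    charP_of_injective_algebraMap (algebraMap k (Localization.Away f)).injective p
  have c2 : CharP (Localization.AtPrime (Ideal.map (algebraMap A (Localization.Away f)) q)) p :=
    charP_of_injective_algebraMap (algebraMap k _).injective p
  have h0 := flat_etale (P := MvPolynomial (Fin n) k) (A := Localization.Away f) p
    (flat_mvPoly k p n)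
  have h1 := flat_loc p (Ideal.map (algebraMap A (Localization.Away f)) q) h0
  have h2 : (Ideal.map (algebraMap A (Localization.Away f)) q).comap
      (algebraMap A (Localization.Away f)) = q :=
    IsLocalization.under_map_of_isPrime_disjoint (.powers f) _ ‹_›
      ((Ideal.disjoint_powers_iff_notMem_of_isPrime _).mpr hf)
  have h3 := IsLocalization.isLocalization_isLocalization_atPrime_isLocalization (.powers f)
    (Localization.AtPrime (Ideal.map (algebraMap A (Localization.Away f)) q))
    (Ideal.map (algebraMap A (Localization.Away f)) q)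
  simp only [h2] at h3
  exact flat_congr (IsLocalization.algEquiv q.primeCompl
    (Localization.AtPrime (Ideal.map (algebraMap A (Localization.Away f)) q))
    (Localization.AtPrime q)).toRingEquiv h1

end Pool.Agent.K6.H44.QG
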