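import Pool.Agent.K6.H44.QG.Hopf

/-!
Rings of functions on a finite group become free, with an integral, over all rings in which
finitely many elements are comparable.
-/

set_option autoImplicit false

namespace Pool.Agent.K6.H44.QG

/-- A minimal element of a finite family of pairwise comparable elements. -/
lemma exists_min_div {E ι : Type*} [Field E] [Finite ι] (S : Subring E) (x : ι → E)
    (hne : ∃ i, x i ≠ 0)
    (hc : ∀ i j, x i ≠ 0 → x j ≠ 0 → x i / x j ∈ S ∨ x j / x i ∈ S) :
    ∃ i, x i ≠ 0 ∧ ∀ j, x j / x i ∈ S := by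
  classical
  have := Fintype.ofFinite ι
  have h1 : ∀ s : Finset ι, (∃ i ∈ s, x i ≠ 0) → ∃ i ∈ s, x i ≠ 0 ∧ ∀ j ∈ s, x j / x i ∈ S := by
    intro s
    induction s using Finset.induction_on with
    | empty =>
      rintro ⟨i, hi, -⟩
      exact absurd hi (Finset.notMem_empty i)
    | insert a s ha ih =>
      intro _
      by_cases hs : ∃ i ∈ s, x i ≠ 0
      · obtain ⟨i, hi, hi0, him⟩ := ih hs
        by_cases h0 : x a = 0
        · refine ⟨i, Finset.mem_insert_of_mem hi, hi0, fun j hj => ?_⟩
          rcases Finset.mem_insert.1 hj with rfl | hj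
          · rw [h0, zero_div]; exact S.zero_mem
          · exact him j hj
        · rcases hc a i h0 hi0 with h2 | h2
          · refine ⟨i, Finset.mem_insert_of_mem hi, hi0, fun j hj => ?_⟩
            rcases Finset.mem_insert.1 hj with rfl | hj
            · exact h2
            · exact him j hj
          · refine ⟨a, Finset.mem_insert_self _ _, h0, fun j hj => ?_⟩
            rcases Finset.mem_insert.1 hj with rfl | hj
            · rw [div_self h0]; exact S.one_mem
            · have h3 : x j / x a = (x j / x i) * (x i / x a) := by field_simp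
              rw [h3]
              exact S.mul_mem (him j hj) h2
      · push Not at hs
        rename_i hex
        obtain ⟨i, hi, hi0⟩ := hex
        have hia : i = a := by
          rcases Finset.mem_insert.1 hi with h | h
          · exact h
          · exact absurd (hs i h) hi0
        subst hia
        refine ⟨i, Finset.mem_insert_self _ _, hi0, fun j hj => ?_⟩
        rcases Finset.mem_insert.1 hj with rfl | hj
        · rw [div_self hi0]; exact S.one_mem
        · rw [hs j hj, zero_div]; exact S.zero_mem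
  obtain ⟨i, hi⟩ := hne
  obtain ⟨i, -, h2, h3⟩ := h1 Finset.univ ⟨i, Finset.mem_univ i, hi⟩
  exact ⟨i, h2, fun j => h3 j (Finset.mem_univ j)⟩

/-- The function `(γ, γ') ↦ f (γ * γ')` is a sum of products of functions in `H`. -/
def Cop {Γ S : Type*} [Group Γ] [CommRing S] (H : Submodule S (Γ → S)) (f : Γ → S) : Prop :=
  (fun q : Γ × Γ => f (q.1 * q.2)) ∈
    Submodule.span S {w : Γ × Γ → S | ∃ u ∈ H, ∃ v ∈ H, w = fun q => u q.1 * v q.2}

lemma Cop.exists {Γ S : Type*} [Group Γ] [CommRing S] {H : Submodule S (Γ → S)} {f : Γ → S}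
    (h : Cop H f) : ∃ (n : ℕ) (u v : Fin n → Γ → S), (∀ j, u j ∈ H) ∧ (∀ j, v j ∈ H) ∧
      ∀ γ γ', f (γ * γ') = ∑ j, u j γ * v j γ' := by
  obtain ⟨n, c, g, hg⟩ := Submodule.mem_span_set'.1 h
  choose u hu v hv huv using fun j => (g j).2
  refine ⟨n, fun j => c j • u j, v, fun j => H.smul_mem _ (hu j), hv, fun γ γ' => ?_⟩
  have h1 := congrFun hg (γ, γ')
  rw [← h1, Finset.sum_apply]
  refine Finset.sum_congr rfl fun j _ => ?_
  rw [Pi.smul_apply, huv j]
  change c j * (u j γ * v j γ') = (c j * u j γ) * v j γ'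
  ring

lemma Cop.of_exists {Γ S : Type*} [Group Γ] [CommRing S] {H : Submodule S (Γ → S)} {f : Γ → S}
    {n : ℕ} {u v : Fin n → Γ → S} (hu : ∀ j, u j ∈ H) (hv : ∀ j, v j ∈ H)
    (h : ∀ γ γ', f (γ * γ') = ∑ j, u j γ * v j γ') : Cop H f := by
  have h1 : (fun q : Γ × Γ => f (q.1 * q.2)) = ∑ j, fun q => u j q.1 * v j q.2 := by
    funext q
    rw [h, Finset.sum_apply]
  unfold Cop
  rw [h1]
  exact Submodule.sum_mem _ fun j _ => Submodule.subset_span ⟨u j, hu j, v j, hv j, rfl⟩

lemma Cop.add {Γ S : Type*} [Group Γ] [CommRing S] {H : Submodule S (Γ → S)} {f g : Γ → S}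
    (hf : Cop H f) (hg : Cop H g) : Cop H (f + g) := Submodule.add_mem _ hf hg

lemma Cop.smul {Γ S : Type*} [Group Γ] [CommRing S] {H : Submodule S (Γ → S)} {f : Γ → S}
    (hf : Cop H f) (c : S) : Cop H (c • f) := Submodule.smul_mem _ c hf

lemma Cop.zero {Γ S : Type*} [Group Γ] [CommRing S] {H : Submodule S (Γ → S)} :
    Cop H (0 : Γ → S) := Submodule.zero_mem _

section main

variable {Γ R : Type*} [Group Γ] [Fintype Γ] [DecidableEq Γ] [CommRing R] [IsDomain R]

/-- The determinant of the values of the functions `h (σ i)`. -/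
noncomputable def Dt {M : ℕ} (h : Fin M → Γ → R) (σ : Γ → Fin M) : R :=
  (Matrix.of fun i j => h (σ i) j).det

/-- The same determinant where the row `i` is replaced by the row which is `1` at the neutral
element. -/
noncomputable def Ut {M : ℕ} (h : Fin M → Γ → R) (σ : Γ → Fin M) (i : Γ) : R :=
  ((Matrix.of fun i j => h (σ i) j).updateRow i (Pi.single 1 1)).det

omit [Group Γ] [IsDomain R] in
lemma cramer_rel {M : ℕ} (h : Fin M → Γ → R) (σ : Γ → Fin M) (b : Γ → R) (j : Γ) :
    Dt h σ * b j = ∑ i, ((Matrix.of fun i j => h (σ i) j).updateRow i b).det * h (σ i) j := by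
  have h1 := congrFun (Matrix.mulVec_cramer (Matrix.of fun i j => h (σ i) j).transpose b) j
  rw [Pi.smul_apply, smul_eq_mul, Matrix.det_transpose] at h1
  unfold Dt
  rw [← h1]
  change ∑ i, _ = _
  refine Finset.sum_congr rfl fun i _ => ?_
  rw [Matrix.cramer_transpose_apply]
  change h (σ i) j * _ = _
  rw [mul_comm]

omit [Group Γ] [IsDomain R] in
lemma det_updateRow_h {M : ℕ} (h : Fin M → Γ → R) (σ : Γ → Fin M) (i : Γ) (m : Fin M) :
    ((Matrix.of fun i j => h (σ i) j).updateRow i (h m)).det = Dt h (Function.update σ i m) := by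
  unfold Dt
  congr 1
  ext a b
  by_cases ha : a = i
  · subst ha
    rw [Matrix.updateRow_self, Matrix.of_apply, Function.update_self]
  · rw [Matrix.updateRow_ne ha, Matrix.of_apply, Matrix.of_apply, Function.update_of_ne ha]

omit [Group Γ] in
lemma exists_Dt_ne {M : ℕ} (h : Fin M → Γ → R)
    (hsep : ∀ γ0, ∃ f ∈ Submodule.span R (Set.range h), f γ0 ≠ 0 ∧ ∀ γ ≠ γ0, f γ = 0) :
    ∃ σ, Dt h σ ≠ 0 := by
  choose f hf hf0 hf1 using hsep
  have h1 : ∀ γ0, ∃ c : Fin M → R, ∑ m, c m • h m = f γ0 := fun γ0 =>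
    (Submodule.mem_span_range_iff_exists_fun R).1 (hf γ0)
  choose c hc using h1
  have h2 : (Matrix.of fun i j => f i j).det = ∏ i, f i i := by
    have h3 : (Matrix.of fun i j => f i j) = Matrix.diagonal fun i => f i i := by
      ext i j
      by_cases hij : i = j
      · subst hij
        simp
      · rw [Matrix.diagonal_apply_ne _ hij, Matrix.of_apply]
        exact hf1 i j (Ne.symm hij)
    rw [h3, Matrix.det_diagonal]
  have h3 : (Matrix.of fun i j => f i j).det ≠ 0 := by
    rw [h2]
    exact Finset.prod_ne_zero_iff.2 fun i _ => hf0 i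
  by_contra hcon
  push Not at hcon
  apply h3
  have h4 : (Matrix.of fun i j => f i j).det =
      (Matrix.detRowAlternating (R := R) (n := Γ)).toMultilinearMap
        (fun i => ∑ m, c i m • h m) := by
    simp only [hc]
    rfl
  rw [h4, MultilinearMap.map_sum]
  refine Finset.sum_eq_zero fun σ _ => ?_
  rw [MultilinearMap.map_smul_univ]
  have h5 : (Matrix.detRowAlternating (R := R) (n := Γ)).toMultilinearMap (fun i => h (σ i)) =
      Dt h σ := rfl
  rw [h5, hcon, smul_zero]

/-- Over every ring `S` in which finitely many elements are comparable, the sums of the values of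
the functions in `H` are divisible by an element `d` such that the function which is `d` at the
neutral element and `0` elsewhere is a combination of functions in `H`. -/
theorem exists_family (H : Subalgebra R (Γ → R)) (hfg : (Subalgebra.toSubmodule H).FG)
    (hinv : ∀ f ∈ H, (fun γ => f γ⁻¹) ∈ H) (hcop : ∀ f ∈ H, Cop (Subalgebra.toSubmodule H) f)
    (hsep : ∀ γ0, ∃ f ∈ H, f γ0 ≠ 0 ∧ ∀ γ ≠ γ0, f γ = 0)
    (E : Type*) [Field E] [Algebra R E] [FaithfulSMul R E] :
    ∃ F : Finset E, (∀ x ∈ F, x ≠ 0) ∧ ∀ S : Subring E, (∀ r, algebraMap R E r ∈ S) →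
      (∀ x ∈ F, ∀ y ∈ F, x / y ∈ S ∨ y / x ∈ S) →
      ∃ d ∈ S, d ≠ 0 ∧ (∀ f ∈ H, ∃ c ∈ S, ∑ γ, algebraMap R E (f γ) = d * c) ∧
        ∃ (n : ℕ) (s : Fin n → E) (f : Fin n → Γ → R), (∀ j, s j ∈ S) ∧ (∀ j, f j ∈ H) ∧
          ∀ γ, ∑ j, s j * algebraMap R E (f j γ) = if γ = 1 then d else 0 := by
  classical
  obtain ⟨M, h, hspan⟩ := Submodule.fg_iff_exists_fin_generating_family.1 hfg
  have hinj : Function.Injective (algebraMap R E) := FaithfulSMul.algebraMap_injective R E
  have hhH : ∀ m, h m ∈ H := by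
    intro m
    have h1 : h m ∈ Submodule.span R (Set.range h) := Submodule.subset_span ⟨m, rfl⟩
    rw [hspan] at h1
    exact h1
  let F : Finset E := ((Finset.univ.image fun σ : Γ → Fin M => algebraMap R E (Dt h σ)) ∪
    (Finset.univ.image fun q : (Γ → Fin M) × Γ => algebraMap R E (Ut h q.1 q.2))).filter
      fun x => x ≠ 0
  refine ⟨F, fun x hx => (Finset.mem_filter.1 hx).2, fun S hRS hcmp => ?_⟩
  have hDF : ∀ σ, algebraMap R E (Dt h σ) ≠ 0 → algebraMap R E (Dt h σ) ∈ F := fun σ h0 =>
    Finset.mem_filter.2 ⟨Finset.mem_union_left _ (Finset.mem_image_of_mem _ (Finset.mem_univ σ)),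
      h0⟩
  have hUF : ∀ σ i, algebraMap R E (Ut h σ i) ≠ 0 → algebraMap R E (Ut h σ i) ∈ F := fun σ i h0 =>
    Finset.mem_filter.2 ⟨Finset.mem_union_right _ (Finset.mem_image.2 ⟨(σ, i), Finset.mem_univ _,
      rfl⟩), h0⟩
  -- the minimal determinant
  obtain ⟨σ0, hσ0⟩ := exists_Dt_ne h (by rw [hspan]; exact hsep)
  obtain ⟨σ, hσ, hσm⟩ := exists_min_div S (fun σ => algebraMap R E (Dt h σ))
    ⟨σ0, fun h0 => hσ0 (hinj (h0.trans (map_zero _).symm))⟩
    (fun i j hi hj => hcmp _ (hDF i hi) _ (hDF j hj))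
  -- the minimal coordinate of the function which is `1` at the neutral element
  have hUne : ∃ i, algebraMap R E (Ut h σ i) ≠ 0 := by
    by_contra hcon
    push Not at hcon
    have h1 := cramer_rel h σ (Pi.single 1 1) 1
    rw [Pi.single_eq_same, mul_one] at h1
    have h2 : algebraMap R E (Dt h σ) = 0 := by
      rw [h1, map_sum]
      refine Finset.sum_eq_zero fun i _ => ?_
      rw [map_mul]
      have := hcon i
      unfold Ut at this
      rw [this, zero_mul]
    exact hσ h2
  obtain ⟨i0, hi0, him⟩ := exists_min_div S (fun i => algebraMap R E (Ut h σ i)) hUne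
    (fun i j hi hj => hcmp _ (hUF σ i hi) _ (hUF σ j hj))
  -- functions with values in `S`
  let φ : R →+* S := (algebraMap R E).codRestrict S hRS
  let fS : (Γ → R) → Γ → S := fun f γ => φ (f γ)
  have hfS : ∀ f γ, ((fS f γ : S) : E) = algebraMap R E (f γ) := fun f γ => rfl
  let hs : Γ → Γ → S := fun i => fS (h (σ i))
  have hli : LinearIndependent S hs := by
    have h1 : (Matrix.of hs).det ≠ 0 := by
      intro h0
      have h2 : (S.subtype) (Matrix.of hs).det = algebraMap R E (Dt h σ) := by
        unfold Dt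
        rw [RingHom.map_det, RingHom.map_det]
        rfl
      rw [h0, map_zero] at h2
      exact hσ h2.symm
    exact Matrix.linearIndependent_rows_of_det_ne_zero h1
  let HS : Submodule S (Γ → S) := Submodule.span S (Set.range hs)
  -- the functions in `H`
  have hmS : ∀ m, fS (h m) ∈ HS := by
    intro m
    have h1 : fS (h m) = ∑ i, (⟨_, hσm (Function.update σ i m)⟩ : S) • hs i := by
      funext γ
      apply Subtype.ext
      rw [Finset.sum_apply]
      push_cast
      rw [hfS]
      have h2 := congrArg (algebraMap R E) (cramer_rel h σ (h m) γ)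
      rw [map_mul, map_sum] at h2
      have h3 : ∀ i, algebraMap R E (((Matrix.of fun i j => h (σ i) j).updateRow i (h m)).det *
          h (σ i) γ) = algebraMap R E (Dt h (Function.update σ i m)) *
            algebraMap R E (h (σ i) γ) := fun i => by rw [map_mul, det_updateRow_h]
      simp only [h3] at h2
      apply mul_left_cancel₀ hσ
      rw [h2, Finset.mul_sum]
      refine Finset.sum_congr rfl fun i _ => ?_
      change _ = algebraMap R E (Dt h σ) * ((algebraMap R E (Dt h (Function.update σ i m)) /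
        algebraMap R E (Dt h σ)) * algebraMap R E (h (σ i) γ))
      field_simp
    rw [h1]
    exact HS.sum_mem fun i _ => HS.smul_mem _ (Submodule.subset_span ⟨i, rfl⟩)
  have hfSmem : ∀ f ∈ H, fS f ∈ HS := by
    intro f hf
    have h1 : f ∈ Submodule.span R (Set.range h) := by rw [hspan]; exact hf
    obtain ⟨c, rfl⟩ := (Submodule.mem_span_range_iff_exists_fun R).1 h1
    have h2 : fS (∑ m, c m • h m) = ∑ m, φ (c m) • fS (h m) := by
      funext γ
      change φ ((∑ m, c m • h m) γ) = _
      rw [Finset.sum_apply, map_sum, Finset.sum_apply]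
      refine Finset.sum_congr rfl fun m _ => ?_
      rw [Pi.smul_apply, smul_eq_mul, map_mul]
      rfl
    rw [h2]
    exact HS.sum_mem fun m _ => HS.smul_mem _ (hmS m)
  have hHSmul : ∀ f ∈ HS, ∀ g ∈ HS, f * g ∈ HS := by
    intro f hf g hg
    induction hf using Submodule.span_induction with
    | mem f hf =>
      obtain ⟨i, rfl⟩ := hf
      induction hg using Submodule.span_induction with
      | mem g hg =>
        obtain ⟨j, rfl⟩ := hg
        have h1 : hs i * hs j = fS (h (σ i) * h (σ j)) := by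
          funext γ
          change φ _ * φ _ = φ _
          rw [← map_mul]
          rfl
        rw [h1]
        exact hfSmem _ (H.mul_mem (hhH _) (hhH _))
      | zero => rw [mul_zero]; exact HS.zero_mem
      | add x y _ _ hx hy => rw [mul_add]; exact HS.add_mem hx hy
      | smul a x _ hx => rw [mul_smul_comm]; exact HS.smul_mem _ hx
    | zero => rw [zero_mul]; exact HS.zero_mem
    | add x y _ _ hx hy => rw [add_mul]; exact HS.add_mem hx hy
    | smul a x _ hx => rw [smul_mul_assoc]; exact HS.smul_mem _ hx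
  have hHSinv : ∀ f ∈ HS, (fun γ => f γ⁻¹) ∈ HS := by
    intro f hf
    induction hf using Submodule.span_induction with
    | mem f hf =>
      obtain ⟨i, rfl⟩ := hf
      exact hfSmem _ (hinv _ (hhH (σ i)))
    | zero => exact HS.zero_mem
    | add x y _ _ hx hy => exact HS.add_mem hx hy
    | smul a x _ hx => exact HS.smul_mem a hx
  have hHScop : ∀ f ∈ HS, Cop HS f := by
    intro f hf
    induction hf using Submodule.span_induction with
    | mem f hf =>
      obtain ⟨i, rfl⟩ := hf
      obtain ⟨n, u, v, hu, hv, huv⟩ := (hcop _ (hhH (σ i))).exists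
      refine Cop.of_exists (u := fun j => fS (u j)) (v := fun j => fS (v j))
        (fun j => hfSmem _ (hu j)) (fun j => hfSmem _ (hv j)) fun γ γ' => ?_
      change φ (h (σ i) (γ * γ')) = ∑ j, φ (u j γ) * φ (v j γ')
      rw [huv, map_sum]
      exact Finset.sum_congr rfl fun j _ => map_mul _ _ _
    | zero => exact Cop.zero
    | add x y _ _ hx hy => exact hx.add hy
    | smul a x _ hx => exact hx.smul a
  let b : Module.Basis Γ S HS := Module.Basis.span hli
  have hb : ∀ i, ((b i : HS) : Γ → S) = hs i := fun i =>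
    congrArg Subtype.val (Module.Basis.span_apply hli i)
  -- the multiple of the function which is `1` at the neutral element
  let s : Γ → S := fun i => ⟨_, him i⟩
  let δ : HS := ∑ i, s i • b i
  have hδ : ∀ γ, algebraMap R E (Ut h σ i0) * (((δ : Γ → S) γ : S) : E) =
      if γ = 1 then algebraMap R E (Dt h σ) else 0 := by
    intro γ
    have h1 := congrArg (algebraMap R E) (cramer_rel h σ (Pi.single 1 1) γ)
    rw [map_mul, map_sum] at h1
    have h2 : (if γ = 1 then algebraMap R E (Dt h σ) else 0) =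
        algebraMap R E (Dt h σ) * algebraMap R E ((Pi.single 1 1 : Γ → R) γ) := by
      rw [Pi.single_apply]
      split_ifs <;> simp
    rw [h2, h1]
    have h3 : ((δ : Γ → S) γ : S) = ∑ i, s i * hs i γ := by
      change ((∑ i, s i • b i : HS) : Γ → S) γ = _
      rw [Submodule.coe_sum, Finset.sum_apply]
      refine Finset.sum_congr rfl fun i _ => ?_
      rw [Submodule.coe_smul, Pi.smul_apply, smul_eq_mul, hb]
    have h5 : ((∑ i, s i * hs i γ : S) : E) = ∑ i, (s i : E) * (hs i γ : E) :=
      (map_sum S.subtype _ _).trans (Finset.sum_congr rfl fun i _ => map_mul S.subtype _ _)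
    rw [h3, h5, Finset.mul_sum]
    refine Finset.sum_congr rfl fun i _ => ?_
    rw [map_mul]
    change algebraMap R E (Ut h σ i0) * ((algebraMap R E (Ut h σ i) /
      algebraMap R E (Ut h σ i0)) * algebraMap R E (h (σ i) γ)) =
        algebraMap R E (Ut h σ i) * algebraMap R E (h (σ i) γ)
    field_simp
  let d : S := (δ : Γ → S) 1
  have hd0 : (d : E) ≠ 0 := by
    intro h0
    have h1 := hδ 1
    rw [if_pos rfl] at h1
    change algebraMap R E (Ut h σ i0) * (d : E) = _ at h1
    rw [h0, mul_zero] at h1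
    exact hσ h1.symm
  have hδs : (δ : Γ → S) = Pi.single 1 d := by
    funext γ
    by_cases hγ : γ = 1
    · subst hγ
      rw [Pi.single_eq_same]
    · rw [Pi.single_eq_of_ne hγ]
      have h1 := hδ γ
      rw [if_neg hγ] at h1
      apply Subtype.ext
      exact (mul_eq_zero.1 h1).resolve_left hi0
  have hdm : (Pi.single 1 d : Γ → S) ∈ HS := by rw [← hδs]; exact δ.2
  have hrepr : b.repr ⟨Pi.single 1 d, hdm⟩ i0 = 1 := by
    have h1 : (⟨Pi.single 1 d, hdm⟩ : HS) = δ := Subtype.ext hδs.symm
    rw [h1]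
    have h2 := congrFun (b.repr_sum_self s) i0
    change b.repr δ i0 = s i0 at h2
    rw [h2]
    apply Subtype.ext
    exact div_self hi0
  obtain ⟨ψ, hψ⟩ := exists_integral HS hHSmul hHSinv (fun f hf => (hHScop f hf).exists) b d hdm i0
    hrepr
  refine ⟨d, d.2, hd0, fun f hf => ?_, ?_⟩
  · refine ⟨ψ ⟨fS f, hfSmem f hf⟩, (ψ ⟨fS f, hfSmem f hf⟩).2, ?_⟩
    have h1 := congrArg (fun z : S => (z : E)) (hψ ⟨fS f, hfSmem f hf⟩)
    push_cast at h1
    exact h1
  · obtain ⟨ε⟩ : Nonempty (Γ ≃ Fin (Fintype.card Γ)) := ⟨Fintype.equivFin Γ⟩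
    refine ⟨Fintype.card Γ, fun j => s (ε.symm j), fun j => h (σ (ε.symm j)), fun j => (s _).2,
      fun j => hhH _, fun γ => ?_⟩
    have h3 : ((δ : Γ → S) γ : S) = ∑ i, s i * hs i γ := by
      change ((∑ i, s i • b i : HS) : Γ → S) γ = _
      rw [Submodule.coe_sum, Finset.sum_apply]
      refine Finset.sum_congr rfl fun i _ => ?_
      rw [Submodule.coe_smul, Pi.smul_apply, smul_eq_mul, hb]
    have h4 : ∑ j, (s (ε.symm j) : E) * algebraMap R E (h (σ (ε.symm j)) γ) =
        (((δ : Γ → S) γ : S) : E) := by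
      rw [h3]
      push_cast
      exact ε.symm.sum_comp (fun i => (s i : E) * algebraMap R E (h (σ i) γ))
    rw [h4, hδs, Pi.single_apply]
    split_ifs <;> rfl

end main

end Pool.Agent.K6.H44.QG
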