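import Pool.Agent.K6.H44.QG.Fun

/-!
The ring of functions on a finite group which is generated by the entries of a matrix
representation, and free algebraic actions.
-/

set_option autoImplicit false
set_option linter.unusedSectionVars false

namespace Pool.Agent.K6.H44.QG

section cop

variable {Γ S : Type*} [Group Γ] [CommRing S]

lemma Cop.mul {H : Subalgebra S (Γ → S)} {f g : Γ → S}
    (hf : Cop (Subalgebra.toSubmodule H) f) (hg : Cop (Subalgebra.toSubmodule H) g) :
    Cop (Subalgebra.toSubmodule H) (f * g) := by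
  unfold Cop at *
  have h1 : (fun q : Γ × Γ => (f * g) (q.1 * q.2)) =
      (fun q : Γ × Γ => f (q.1 * q.2)) * (fun q : Γ × Γ => g (q.1 * q.2)) := rfl
  rw [h1]
  have h2 := Submodule.mul_mem_mul hf hg
  rw [Submodule.span_mul_span] at h2
  refine Submodule.span_mono ?_ h2
  rintro _ ⟨_, ⟨u, hu, v, hv, rfl⟩, _, ⟨u', hu', v', hv', rfl⟩, rfl⟩
  refine ⟨u * u', H.mul_mem hu hu', v * v', H.mul_mem hv hv', ?_⟩
  funext q
  change (u q.1 * v q.2) * (u' q.1 * v' q.2) = (u q.1 * u' q.1) * (v q.2 * v' q.2)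
  ring

end cop

section gl

variable {Γ R : Type*} [Group Γ] [CommRing R] {n : ℕ} (φ : Γ →* GL (Fin n) R)

/-- The entries as functions on the group. -/
def ent (i j : Fin n) : Γ → R := fun γ => (φ γ : Matrix (Fin n) (Fin n) R) i j

/-- The entries of the inverse as functions on the group. -/
def enti (i j : Fin n) : Γ → R := fun γ => ((φ γ)⁻¹ : GL (Fin n) R).1 i j

/-- The functions which are polynomials in the entries of the matrix and of the inverse matrix. -/
def HG : Subalgebra R (Γ → R) :=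
  Algebra.adjoin R (Set.range (fun q : Fin n × Fin n => ent φ q.1 q.2) ∪
    Set.range (fun q : Fin n × Fin n => enti φ q.1 q.2))

lemma ent_mem (i j : Fin n) : ent φ i j ∈ HG φ :=
  Algebra.subset_adjoin (Or.inl ⟨(i, j), rfl⟩)

lemma enti_mem (i j : Fin n) : enti φ i j ∈ HG φ :=
  Algebra.subset_adjoin (Or.inr ⟨(i, j), rfl⟩)

lemma HG_fg [Finite Γ] : (Subalgebra.toSubmodule (HG φ)).FG := by
  refine fg_adjoin_of_finite ((Set.finite_range _).union (Set.finite_range _)) fun x _ => ?_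
  exact Algebra.IsIntegral.isIntegral x

lemma HG_inv (f : Γ → R) (hf : f ∈ HG φ) : (fun γ => f γ⁻¹) ∈ HG φ := by
  unfold HG at hf
  induction hf using Algebra.adjoin_induction with
  | mem x hx =>
    rcases hx with ⟨⟨i, j⟩, rfl⟩ | ⟨⟨i, j⟩, rfl⟩
    · have h1 : (fun γ => ent φ i j γ⁻¹) = enti φ i j := by
        funext γ
        unfold ent enti
        rw [map_inv]
      change (fun γ => ent φ i j γ⁻¹) ∈ HG φ
      rw [h1]
      exact enti_mem φ i j
    · have h1 : (fun γ => enti φ i j γ⁻¹) = ent φ i j := by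
        funext γ
        unfold ent enti
        rw [map_inv, inv_inv]
      change (fun γ => enti φ i j γ⁻¹) ∈ HG φ
      rw [h1]
      exact ent_mem φ i j
  | algebraMap r => exact (HG φ).algebraMap_mem r
  | add x y _ _ hx hy => exact (HG φ).add_mem hx hy
  | mul x y _ _ hx hy => exact (HG φ).mul_mem hx hy

lemma HG_cop (f : Γ → R) (hf : f ∈ HG φ) : Cop (Subalgebra.toSubmodule (HG φ)) f := by
  have hf' := hf
  unfold HG at hf
  induction hf using Algebra.adjoin_induction with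
  | mem x hx =>
    rcases hx with ⟨⟨i, j⟩, rfl⟩ | ⟨⟨i, j⟩, rfl⟩
    · refine Cop.of_exists (u := fun l => ent φ i l) (v := fun l => ent φ l j)
        (fun l => ent_mem φ _ _) (fun l => ent_mem φ _ _) fun γ γ' => ?_
      change (φ (γ * γ') : Matrix (Fin n) (Fin n) R) i j = _
      rw [map_mul, Units.val_mul, Matrix.mul_apply]
      rfl
    · refine Cop.of_exists (u := fun l => enti φ l j) (v := fun l => enti φ i l)
        (fun l => enti_mem φ _ _) (fun l => enti_mem φ _ _) fun γ γ' => ?_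
      change ((φ (γ * γ'))⁻¹ : GL (Fin n) R).1 i j = _
      rw [map_mul, mul_inv_rev, Units.val_mul, Matrix.mul_apply]
      refine Finset.sum_congr rfl fun l _ => ?_
      rw [mul_comm]
      rfl
  | algebraMap r =>
    refine Cop.of_exists (n := 1) (u := fun _ => algebraMap R _ r) (v := fun _ => 1)
      (fun l => (HG φ).algebraMap_mem r) (fun l => (HG φ).one_mem) fun γ γ' => ?_
    rw [Fin.sum_univ_one]
    change r = r * 1
    rw [mul_one]
  | add x y hx1 hy1 hx hy => exact (hx hx1).add (hy hy1)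
  | mul x y hx1 hy1 hx hy => exact (hx hx1).mul (hy hy1)

lemma HG_sep [IsDomain R] [Finite Γ] (hφ : Function.Injective φ) (γ0 : Γ) :
    ∃ f ∈ HG φ, f γ0 ≠ 0 ∧ ∀ γ ≠ γ0, f γ = 0 := by
  classical
  have := Fintype.ofFinite Γ
  have h1 : ∀ γ : Γ, γ ≠ γ0 → ∃ i j, ent φ i j γ0 ≠ ent φ i j γ := by
    intro γ hγ
    by_contra h
    push Not at h
    refine hγ (hφ ?_)
    apply Units.ext
    ext i j
    exact (h i j).symm
  have h2 : ∀ γ : Γ, ∃ g ∈ HG φ, g γ0 ≠ 0 ∧ (γ ≠ γ0 → g γ = 0) := by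
    intro γ
    by_cases hγ : γ = γ0
    · exact ⟨1, (HG φ).one_mem, one_ne_zero, fun h => absurd hγ h⟩
    · obtain ⟨i, j, hij⟩ := h1 γ hγ
      refine ⟨ent φ i j - algebraMap R _ (ent φ i j γ), (HG φ).sub_mem (ent_mem φ i j)
        ((HG φ).algebraMap_mem _), ?_, fun _ => ?_⟩
      · exact sub_ne_zero.2 hij
      · exact sub_self _
  choose g hg hg0 hg1 using h2
  refine ⟨∏ γ, g γ, (HG φ).prod_mem fun γ _ => hg γ, ?_, ?_⟩
  · rw [Finset.prod_apply]
    exact Finset.prod_ne_zero_iff.2 fun γ _ => hg0 γ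
  · intro γ hγ
    rw [Finset.prod_apply]
    exact Finset.prod_eq_zero (Finset.mem_univ γ) (hg1 γ hγ)

end gl

section act

variable {Γ R A : Type*} [Group Γ] [CommRing R] [CommRing A] [Algebra R A]

/-- The `A`-module generated by the functions with values in `R` in `H`. -/
def HA (A : Type*) [CommRing A] [Algebra R A] (H : Subalgebra R (Γ → R)) : Submodule A (Γ → A) :=
  Submodule.span A {w : Γ → A | ∃ h ∈ H, w = fun γ => algebraMap R A (h γ)}

/-- The `A`-module generated by the orbit functions. -/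
def OA (ρ : Γ →* (A ≃ₐ[R] A)) : Submodule A (Γ → A) :=
  Submodule.span A {w : Γ → A | ∃ y : A, w = fun γ => ρ γ y}

lemma HA_mul {H : Subalgebra R (Γ → R)} {f g : Γ → A} (hf : f ∈ HA A H) (hg : g ∈ HA A H) :
    f * g ∈ HA A H := by
  unfold HA at *
  have h2 := Submodule.mul_mem_mul hf hg
  rw [Submodule.span_mul_span] at h2
  refine Submodule.span_mono ?_ h2
  rintro _ ⟨_, ⟨u, hu, rfl⟩, _, ⟨v, hv, rfl⟩, rfl⟩
  refine ⟨u * v, H.mul_mem hu hv, ?_⟩
  funext γ
  change algebraMap R A (u γ) * algebraMap R A (v γ) = algebraMap R A (u γ * v γ)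
  rw [map_mul]

lemma OA_mul {ρ : Γ →* (A ≃ₐ[R] A)} {f g : Γ → A} (hf : f ∈ OA ρ) (hg : g ∈ OA ρ) :
    f * g ∈ OA ρ := by
  unfold OA at *
  have h2 := Submodule.mul_mem_mul hf hg
  rw [Submodule.span_mul_span] at h2
  refine Submodule.span_mono ?_ h2
  rintro _ ⟨_, ⟨u, rfl⟩, _, ⟨v, rfl⟩, rfl⟩
  refine ⟨u * v, ?_⟩
  funext γ
  change ρ γ u * ρ γ v = ρ γ (u * v)
  rw [map_mul]

lemma HA_exists {H : Subalgebra R (Γ → R)} {f : Γ → A} (hf : f ∈ HA A H) :
    ∃ (m : ℕ) (x : Fin m → A) (h : Fin m → Γ → R), (∀ j, h j ∈ H) ∧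
      ∀ γ, f γ = ∑ j, x j * algebraMap R A (h j γ) := by
  obtain ⟨m, c, g, hg⟩ := Submodule.mem_span_set'.1 hf
  choose h hh hgh using fun j => (g j).2
  refine ⟨m, c, h, hh, fun γ => ?_⟩
  rw [← hg, Finset.sum_apply]
  refine Finset.sum_congr rfl fun j _ => ?_
  rw [Pi.smul_apply, hgh j, smul_eq_mul]

lemma OA_exists {ρ : Γ →* (A ≃ₐ[R] A)} {f : Γ → A} (hf : f ∈ OA ρ) :
    ∃ (m : ℕ) (x y : Fin m → A), ∀ γ, f γ = ∑ j, x j * ρ γ (y j) := by
  obtain ⟨m, c, g, hg⟩ := Submodule.mem_span_set'.1 hf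
  choose y hy using fun j => (g j).2
  refine ⟨m, c, y, fun γ => ?_⟩
  rw [← hg, Finset.sum_apply]
  refine Finset.sum_congr rfl fun j _ => ?_
  rw [Pi.smul_apply, hy j, smul_eq_mul]

variable {n : ℕ} (φ : Γ →* GL (Fin n) R)

/-- The entries of the matrix and of its inverse. -/
def pts (A : Type*) [CommRing A] [Algebra R A] (γ : Γ) : (Fin n × Fin n) ⊕ (Fin n × Fin n) → A :=
  Sum.elim (fun q : Fin n × Fin n => algebraMap R A ((φ γ).1 q.1 q.2))
    (fun q : Fin n × Fin n => algebraMap R A (((φ γ)⁻¹ : GL (Fin n) R).1 q.1 q.2))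

/-- An algebraic action. -/
lemma orbit_mem (ρ : Γ →* (A ≃ₐ[R] A)) (a : A)
    (h : ∃ P : MvPolynomial ((Fin n × Fin n) ⊕ (Fin n × Fin n)) A, ∀ γ : Γ,
      ρ γ a = MvPolynomial.eval (pts φ A γ) P) :
    (fun γ => ρ γ a) ∈ HA A (HG φ) := by
  obtain ⟨P, hP⟩ := h
  have h1 : (fun γ => ρ γ a) = fun γ => MvPolynomial.eval (pts φ A γ) P := funext hP
  rw [h1]
  clear h1 hP
  induction P using MvPolynomial.induction_on with
  | C b =>
    have h2 : (fun γ => MvPolynomial.eval (pts φ A γ) (MvPolynomial.C b)) =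
        b • (fun γ => algebraMap R A ((1 : Γ → R) γ)) := by
      funext γ
      rw [MvPolynomial.eval_C, Pi.smul_apply, Pi.one_apply, map_one, smul_eq_mul, mul_one]
    rw [h2]
    exact Submodule.smul_mem _ _ (Submodule.subset_span ⟨1, (HG φ).one_mem, rfl⟩)
  | add P Q hP hQ =>
    have h2 := (HA A (HG φ)).add_mem hP hQ
    convert h2 using 1
    funext γ
    rw [map_add]
    rfl
  | mul_X P q hP =>
    have h3 : (fun γ => pts φ A γ q) ∈ HA A (HG φ) := by
      rcases q with ⟨i, j⟩ | ⟨i, j⟩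
      · exact Submodule.subset_span ⟨ent φ i j, ent_mem φ i j, rfl⟩
      · exact Submodule.subset_span ⟨enti φ i j, enti_mem φ i j, rfl⟩
    have h2 := HA_mul hP h3
    convert h2 using 1
    funext γ
    rw [map_mul, MvPolynomial.eval_X]
    rfl

end act

end Pool.Agent.K6.H44.QG
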