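import Mathlib

/-!
Integrals on rings of functions on a finite group which are closed under the operations of the
group, and the projectivity of rings over their invariants.
-/

set_option autoImplicit false

namespace Pool.Agent.K6.H44.QG

section hopf

variable {Γ S : Type*} [Group Γ] [Fintype Γ] [DecidableEq Γ] [CommRing S]

/-- Let `H` be a ring of functions on the finite group `Γ` with values in `S`, which is a free
`S`-module and closed under translations in the strong sense, and under inversion. If the function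
which is `d` at `1` and `0` elsewhere is in `H`, with one coordinate `1`, then the sum of the values
of each function in `H` is divisible by `d`. -/
theorem exists_integral (H : Submodule S (Γ → S)) (hmul : ∀ f ∈ H, ∀ g ∈ H, f * g ∈ H)
    (hinv : ∀ f ∈ H, (fun γ => f γ⁻¹) ∈ H)
    (hcop : ∀ f ∈ H, ∃ (n : ℕ) (u v : Fin n → Γ → S), (∀ j, u j ∈ H) ∧ (∀ j, v j ∈ H) ∧
      ∀ γ γ', f (γ * γ') = ∑ j, u j γ * v j γ')
    {ι : Type*} [Fintype ι] (b : Module.Basis ι S H) (d : S) (hd : (Pi.single 1 d : Γ → S) ∈ H)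
    (i0 : ι) (hi0 : b.repr ⟨Pi.single 1 d, hd⟩ i0 = 1) :
    ∃ ψ : H →ₗ[S] S, ∀ f : H, ∑ γ, (f : Γ → S) γ = d * ψ f := by
  -- translates
  have htr : ∀ f ∈ H, ∀ γ, (fun γ' => f (γ * γ')) ∈ H := by
    intro f hf γ
    obtain ⟨n, u, v, hu, hv, h⟩ := hcop f hf
    have h1 : (fun γ' => f (γ * γ')) = ∑ j, u j γ • v j := by
      funext γ'
      rw [h, Finset.sum_apply]
      rfl
    rw [h1]
    exact H.sum_mem fun j _ => H.smul_mem _ (hv j)
  let tr : H → Γ → H := fun f γ => ⟨fun γ' => (f : Γ → S) (γ * γ'), htr f f.2 γ⟩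
  have hTmem : ∀ (ψ : H →ₗ[S] S) (f : H), (fun γ => ψ (tr f γ)) ∈ H := by
    intro ψ f
    obtain ⟨n, u, v, hu, hv, h⟩ := hcop f f.2
    have h1 : (fun γ => ψ (tr f γ)) = ∑ j, ψ ⟨v j, hv j⟩ • u j := by
      funext γ
      have h2 : tr f γ = ∑ j, u j γ • (⟨v j, hv j⟩ : H) := by
        apply Subtype.ext
        funext γ'
        change (f : Γ → S) (γ * γ') = _
        rw [h]
        simp
      rw [h2, map_sum, Finset.sum_apply]
      refine Finset.sum_congr rfl fun j _ => ?_
      rw [map_smul, smul_eq_mul, Pi.smul_apply, smul_eq_mul, mul_comm]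
    rw [h1]
    exact H.sum_mem fun j _ => H.smul_mem _ (hu j)
  let T : (H →ₗ[S] S) → H →ₗ[S] H := fun ψ =>
    { toFun := fun f => ⟨fun γ => ψ (tr f γ), hTmem ψ f⟩
      map_add' := fun f g => by
        apply Subtype.ext
        funext γ
        change ψ (tr (f + g) γ) = ψ (tr f γ) + ψ (tr g γ)
        rw [← map_add]
        rfl
      map_smul' := fun r f => by
        apply Subtype.ext
        funext γ
        change ψ (tr (r • f) γ) = r • ψ (tr f γ)
        rw [← map_smul]
        rfl }
  let δ : H := ⟨Pi.single 1 d, hd⟩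
  have hδ : ∀ γ γ', (tr δ γ : Γ → S) γ' = if γ * γ' = 1 then d else 0 := by
    intro γ γ'
    change (Pi.single 1 d : Γ → S) (γ * γ') = _
    rw [Pi.single_apply]
  let L : (Γ → S) → Prop := fun x => ∃ ψ : H →ₗ[S] S, ∀ γ, x γ = ψ (tr δ γ)
  have hLadd : ∀ x y, L x → L y → L (x + y) := by
    rintro x y ⟨ψ, hψ⟩ ⟨χ, hχ⟩
    exact ⟨ψ + χ, fun γ => by rw [Pi.add_apply, hψ, hχ]; rfl⟩
  have hLsum : ∀ (s : Finset ι) (x : ι → Γ → S), (∀ i ∈ s, L (x i)) → L (∑ i ∈ s, x i) := by
    classical
    intro s x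
    induction s using Finset.induction_on with
    | empty =>
      intro _
      exact ⟨0, fun γ => by simp⟩
    | insert a s ha ih =>
      intro h
      rw [Finset.sum_insert ha]
      exact hLadd _ _ (h a (Finset.mem_insert_self _ _))
        (ih fun i hi => h i (Finset.mem_insert_of_mem hi))
  have hLmul : ∀ x, L x → ∀ h ∈ H, L (x * h) := by
    rintro x ⟨ψ, hψ⟩ h hh
    let μ : H →ₗ[S] H :=
      { toFun := fun f => ⟨(fun γ => h γ⁻¹) * f, hmul _ (hinv h hh) _ f.2⟩
        map_add' := fun f g => by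
          apply Subtype.ext
          change _ * ((f : Γ → S) + g) = _
          rw [mul_add]
          rfl
        map_smul' := fun r f => by
          apply Subtype.ext
          funext γ
          change h γ⁻¹ * (r * (f : Γ → S) γ) = r * (h γ⁻¹ * (f : Γ → S) γ)
          ring }
    refine ⟨ψ.comp μ, fun γ => ?_⟩
    have h1 : μ (tr δ γ) = h γ • tr δ γ := by
      apply Subtype.ext
      funext γ'
      change h γ'⁻¹ * (tr δ γ : Γ → S) γ' = h γ * (tr δ γ : Γ → S) γ'
      rw [hδ]
      split_ifs with h2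
      · rw [← eq_inv_of_mul_eq_one_left h2]
      · rw [mul_zero, mul_zero]
    change x γ * h γ = ψ (μ (tr δ γ))
    rw [h1, map_smul, hψ, smul_eq_mul, mul_comm]
  -- the constant function `1`
  let ψ1 : H →ₗ[S] S := b.coord i0
  have hψ1 : ψ1 δ = 1 := hi0
  have hx1 : ∀ γ γ', (T ψ1 (tr δ γ) : Γ → S) γ' = ψ1 (tr δ (γ * γ')) := by
    intro γ γ'
    change ψ1 (tr (tr δ γ) γ') = _
    congr 1
    apply Subtype.ext
    funext τ
    change (δ : Γ → S) (γ * (γ' * τ)) = (δ : Γ → S) (γ * γ' * τ)
    rw [mul_assoc]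
  have hone : L 1 := by
    have h1 : (1 : Γ → S) = ∑ i, (fun γ => b.coord i (T ψ1 (tr δ γ))) *
        (fun γ => ((b i : H) : Γ → S) γ⁻¹) := by
      funext γ
      have h2 := b.sum_repr (T ψ1 (tr δ γ))
      have h3 := congrArg (fun f : H => (f : Γ → S) γ⁻¹) h2
      have h4 : ((∑ i, b.repr (T ψ1 (tr δ γ)) i • b i : H) : Γ → S) γ⁻¹ =
          ∑ i, b.repr (T ψ1 (tr δ γ)) i * ((b i : H) : Γ → S) γ⁻¹ := by
        rw [Submodule.coe_sum, Finset.sum_apply]
        rfl
      change ((∑ i, b.repr (T ψ1 (tr δ γ)) i • b i : H) : Γ → S) γ⁻¹ =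
        (T ψ1 (tr δ γ) : Γ → S) γ⁻¹ at h3
      rw [h4, hx1, mul_inv_cancel] at h3
      have h5 : tr δ 1 = δ := by
        apply Subtype.ext
        funext τ
        change (δ : Γ → S) (1 * τ) = _
        rw [one_mul]
      rw [h5, hψ1] at h3
      rw [Pi.one_apply, ← h3, Finset.sum_apply]
      rfl
    rw [h1]
    refine hLsum _ _ fun i _ => hLmul _ ?_ _ (hinv _ (b i).2)
    exact ⟨(b.coord i).comp (T ψ1), fun γ => rfl⟩
  obtain ⟨ψ, hψ⟩ := hone
  refine ⟨ψ, fun f => ?_⟩
  have h1 : d • f = ∑ γ, (f : Γ → S) γ⁻¹ • tr δ γ := by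
    apply Subtype.ext
    funext γ'
    have h2 : ((∑ γ, (f : Γ → S) γ⁻¹ • tr δ γ : H) : Γ → S) γ' =
        ∑ γ, (f : Γ → S) γ⁻¹ * (tr δ γ : Γ → S) γ' := by
      simp
    rw [h2]
    rw [Finset.sum_eq_single γ'⁻¹]
    · rw [hδ, inv_mul_cancel, if_pos rfl, inv_inv, mul_comm]
      rfl
    · intro γ _ hγ
      rw [hδ, if_neg, mul_zero]
      intro h3
      exact hγ (eq_inv_of_mul_eq_one_left h3)
    · intro h
      exact absurd (Finset.mem_univ _) h
  have h2 := congrArg ψ h1
  rw [map_smul, map_sum, smul_eq_mul] at h2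
  rw [h2]
  refine Fintype.sum_equiv (Equiv.inv Γ) _ _ fun γ => ?_
  rw [map_smul, ← hψ, Pi.one_apply, smul_eq_mul, mul_one, Equiv.inv_apply, inv_inv]

end hopf

section proj

variable {Γ A C : Type*} [Group Γ] [Fintype Γ] [DecidableEq Γ] [CommRing A] [CommRing C]
  [Algebra C A]

/-- A ring which is projective over its invariants. -/
theorem projective_of_trace (ρ : Γ →* (A ≃+* A)) (hC : Function.Injective (algebraMap C A))
    (hC1 : ∀ c γ, ρ γ (algebraMap C A c) = algebraMap C A c)
    (hC2 : ∀ a, (∀ γ, ρ γ a = a) → ∃ c, algebraMap C A c = a) (d : A)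
    (hd : ∀ a b, d * a = d * b → a = b) (hd1 : ∀ γ, ρ γ d = d)
    (htr : ∀ a, ∃ t, ∑ γ, ρ γ a = d * t) {n : ℕ} (x y : Fin n → A)
    (hxy : ∀ γ, ∑ l, x l * ρ γ (y l) = if γ = 1 then d else 0) :
    Module.Projective C A ∧ Module.Finite C A := by
  have hinv : ∀ a t, ∑ γ, ρ γ a = d * t → ∀ γ, ρ γ t = t := by
    intro a t ht γ
    apply hd
    have h1 := congrArg (ρ γ) ht
    rw [map_mul, hd1, map_sum] at h1
    rw [← h1, ← ht]
    have h2 : ∀ γ', ρ γ (ρ γ' a) = ρ (γ * γ') a := by
      intro γ'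
      rw [map_mul]
      rfl
    simp only [h2]
    exact Fintype.sum_equiv (Equiv.mulLeft γ) _ _ fun γ' => rfl
  have h1 : ∀ a, ∃ c : C, ∑ γ, ρ γ a = d * algebraMap C A c := by
    intro a
    obtain ⟨t, ht⟩ := htr a
    obtain ⟨c, rfl⟩ := hC2 t (hinv a t ht)
    exact ⟨c, ht⟩
  choose t ht using h1
  have hadd : ∀ a b, t (a + b) = t a + t b := by
    intro a b
    apply hC
    apply hd
    rw [← ht, map_add, mul_add, ← ht, ← ht, ← Finset.sum_add_distrib]
    exact Finset.sum_congr rfl fun γ _ => map_add _ _ _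
  have hsmul : ∀ (c : C) a, t (algebraMap C A c * a) = c * t a := by
    intro c a
    apply hC
    apply hd
    rw [← ht, map_mul, mul_left_comm, ← ht, Finset.mul_sum]
    exact Finset.sum_congr rfl fun γ _ => by rw [map_mul, hC1]
  have hrep : ∀ a, ∑ l, algebraMap C A (t (y l * a)) * x l = a := by
    intro a
    apply hd
    rw [Finset.mul_sum]
    calc ∑ l, d * (algebraMap C A (t (y l * a)) * x l)
        = ∑ l, (∑ γ, ρ γ (y l * a)) * x l := by
          refine Finset.sum_congr rfl fun l _ => ?_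
          rw [ht]
          ring
      _ = ∑ γ, (∑ l, x l * ρ γ (y l)) * ρ γ a := by
          simp only [Finset.sum_mul]
          rw [Finset.sum_comm]
          refine Finset.sum_congr rfl fun γ _ => Finset.sum_congr rfl fun l _ => ?_
          rw [map_mul]
          ring
      _ = d * a := by
          rw [Finset.sum_eq_single 1]
          · rw [hxy, if_pos rfl, map_one]
            rfl
          · intro γ _ hγ
            rw [hxy, if_neg hγ, zero_mul]
          · intro h
            exact absurd (Finset.mem_univ _) h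
  let i : A →ₗ[C] (Fin n → C) :=
    { toFun := fun a l => t (y l * a)
      map_add' := fun a b => by
        funext l
        rw [mul_add, hadd]
        rfl
      map_smul' := fun c a => by
        funext l
        rw [Algebra.smul_def, mul_left_comm, hsmul]
        rfl }
  let s : (Fin n → C) →ₗ[C] A :=
    { toFun := fun v => ∑ l, algebraMap C A (v l) * x l
      map_add' := fun v w => by
        rw [← Finset.sum_add_distrib]
        refine Finset.sum_congr rfl fun l _ => ?_
        rw [Pi.add_apply, map_add, add_mul]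
      map_smul' := fun c v => by
        rw [RingHom.id_apply, Finset.smul_sum]
        refine Finset.sum_congr rfl fun l _ => ?_
        rw [Pi.smul_apply, smul_eq_mul, map_mul, Algebra.smul_def, mul_assoc] }
  have hsi : s.comp i = LinearMap.id := by
    ext a
    exact hrep a
  refine ⟨Module.Projective.of_split i s hsi, ?_⟩
  refine Module.Finite.of_surjective s fun a => ⟨i a, ?_⟩
  exact LinearMap.congr_fun hsi a

end proj

end Pool.Agent.K6.H44.QG
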