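import Mathlib

/-!
Lech's lemma on independent sequences, and the lengths of the quotients by the `p`-th powers.
-/

set_option autoImplicit false

namespace Pool.Agent.K6.H44.QG

open Module

section lech

variable {a : Type*} [CommRing a]

/-- The elements `f i` are independent: the coefficients of all relations between them are in the
ideal which they generate. -/
def Ind {ι : Type*} [Fintype ι] (f : ι → a) : Prop :=
  ∀ c : ι → a, ∑ i, c i * f i = 0 → ∀ i, c i ∈ Ideal.span (Set.range f)

lemma mem_span_range_iff {ι : Type*} [Fintype ι] {f : ι → a} {x : a} :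
    x ∈ Ideal.span (Set.range f) ↔ ∃ v : ι → a, ∑ i, v i * f i = x := by
  have h := Submodule.mem_span_range_iff_exists_fun (R := a) (v := f) (x := x)
  simp only [smul_eq_mul] at h
  exact h

variable {ι : Type*} [Fintype ι] [DecidableEq ι]

lemma sum_update (f : ι → a) (i : ι) (g : a) (c : ι → a) :
    ∑ j, c j * Function.update f i g j = c i * g + ∑ j ∈ Finset.univ.erase i, c j * f j := by
  rw [← Finset.add_sum_erase _ _ (Finset.mem_univ i), Function.update_self]
  congr 1
  refine Finset.sum_congr rfl fun j hj => ?_
  rw [Function.update_of_ne (Finset.ne_of_mem_erase hj)]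

lemma span_le_update {f : ι → a} {i : ι} {g h : a} (hf : f i = g * h) :
    Ideal.span (Set.range f) ≤ Ideal.span (Set.range (Function.update f i g)) := by
  rw [Ideal.span_le]
  rintro _ ⟨j, rfl⟩
  by_cases hj : j = i
  · subst hj
    change f j ∈ Ideal.span (Set.range (Function.update f j g))
    rw [hf]
    exact Ideal.mul_mem_right _ _ (Ideal.subset_span ⟨j, Function.update_self _ _ _⟩)
  · exact Ideal.subset_span ⟨j, Function.update_of_ne hj _ _⟩

/-- Lech's lemma. -/
theorem Ind.update {f : ι → a} (hI : Ind f) {i : ι} {g h : a} (hf : f i = g * h) :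
    Ind (Function.update f i g) := by
  intro c hc
  rw [sum_update] at hc
  have hle := span_le_update hf
  have hgm : g ∈ Ideal.span (Set.range (Function.update f i g)) :=
    Ideal.subset_span ⟨i, Function.update_self _ _ _⟩
  -- multiply by `h`
  have h1 : ∑ j, (Function.update (fun j => h * c j) i (c i)) j * f j = 0 := by
    rw [← Finset.add_sum_erase _ _ (Finset.mem_univ i), Function.update_self, hf]
    have h2 : ∑ j ∈ Finset.univ.erase i, Function.update (fun j => h * c j) i (c i) j * f j =
        h * ∑ j ∈ Finset.univ.erase i, c j * f j := by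
      rw [Finset.mul_sum]
      refine Finset.sum_congr rfl fun j hj => ?_
      rw [Function.update_of_ne (Finset.ne_of_mem_erase hj), mul_assoc]
    rw [h2]
    have h3 := congrArg (fun z => h * z) hc
    simp only [mul_zero] at h3
    linear_combination h3
  have h4 := hI _ h1 i
  rw [Function.update_self] at h4
  obtain ⟨v, hv⟩ := mem_span_range_iff.1 h4
  intro j
  by_cases hj : j = i
  · subst hj
    exact hle h4
  · -- substitute
    have h5 : ∑ l, (Function.update (fun l => c l + v l * g) i (v i * g)) l * f l = 0 := by
      rw [← Finset.add_sum_erase _ _ (Finset.mem_univ i), Function.update_self]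
      have h2 : ∑ l ∈ Finset.univ.erase i,
          Function.update (fun l => c l + v l * g) i (v i * g) l * f l =
          ∑ l ∈ Finset.univ.erase i, c l * f l + g * ∑ l ∈ Finset.univ.erase i, v l * f l := by
        rw [Finset.mul_sum, ← Finset.sum_add_distrib]
        refine Finset.sum_congr rfl fun l hl => ?_
        rw [Function.update_of_ne (Finset.ne_of_mem_erase hl)]
        ring
      rw [h2]
      rw [← Finset.add_sum_erase _ _ (Finset.mem_univ i)] at hv
      linear_combination hc + g * hv
    have h6 := hI _ h5 j
    rw [Function.update_of_ne hj] at h6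
    have h7 : c j = (c j + v j * g) - v j * g := by ring
    rw [h7]
    exact Ideal.sub_mem _ (hle h6) (Ideal.mul_mem_left _ _ hgm)

lemma Ind.colon {f : ι → a} (hI : Ind f) (i : ι) {z : a}
    (hz : z * f i ∈ Ideal.span (f '' {j | j ≠ i})) : z ∈ Ideal.span (Set.range f) := by
  have h1 : ∃ v : ι → a, v i = 0 ∧ ∑ j, v j * f j = z * f i := by
    refine Submodule.span_induction (p := fun x _ => ∃ v : ι → a, v i = 0 ∧ ∑ j, v j * f j = x)
      ?_ ?_ ?_ ?_ hz
    · rintro _ ⟨j, hj, rfl⟩
      refine ⟨Pi.single j 1, ?_, ?_⟩
      · rw [Pi.single_eq_of_ne (Ne.symm hj)]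
      · simp [Pi.single_apply]
    · exact ⟨0, rfl, by simp⟩
    · rintro x y - - ⟨v, hv0, hv⟩ ⟨w, hw0, hw⟩
      refine ⟨v + w, by simp [hv0, hw0], ?_⟩
      simp only [Pi.add_apply, add_mul, Finset.sum_add_distrib, hv, hw]
    · rintro r x - ⟨v, hv0, hv⟩
      refine ⟨fun j => r * v j, by simp [hv0], ?_⟩
      rw [smul_eq_mul, ← hv, Finset.mul_sum]
      exact Finset.sum_congr rfl fun j _ => by ring
  obtain ⟨v, hv0, hv⟩ := h1
  have h2 : ∑ j, (Function.update (fun j => - v j) i z) j * f j = 0 := by
    rw [← Finset.add_sum_erase _ _ (Finset.mem_univ i), Function.update_self]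
    have h3 : ∑ j ∈ Finset.univ.erase i, Function.update (fun j => - v j) i z j * f j =
        - ∑ j ∈ Finset.univ.erase i, v j * f j := by
      rw [← Finset.sum_neg_distrib]
      refine Finset.sum_congr rfl fun j hj => ?_
      rw [Function.update_of_ne (Finset.ne_of_mem_erase hj)]
      ring
    rw [h3, ← hv, ← Finset.add_sum_erase _ _ (Finset.mem_univ i), hv0]
    ring
  have h4 := hI _ h2 i
  rwa [Function.update_self] at h4

end lech

section length

variable {a : Type*} [CommRing a]

/-- Powers of one element. -/
theorem length_pow (J : Ideal a) (x : a) (p : ℕ)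
    (hx : ∀ z, z * x ^ p ∈ J → z ∈ Ideal.span {x ^ p} ⊔ J) :
    ∀ m ≤ p, length a (a ⧸ (Ideal.span {x ^ m} ⊔ J)) =
      m * length a (a ⧸ (Ideal.span {x} ⊔ J)) := by
  intro m
  induction m with
  | zero =>
    intro _
    have h1 : Ideal.span {x ^ 0} ⊔ J = ⊤ := by
      rw [pow_zero, Ideal.span_singleton_one, top_sup_eq]
    rw [h1]
    have : Subsingleton (a ⧸ (⊤ : Ideal a)) := Ideal.Quotient.subsingleton_iff.2 rfl
    rw [Module.length_eq_zero]
    simp
  | succ m ih =>
    intro hm
    have ih' := ih (by omega)
    set I1 : Ideal a := Ideal.span {x} ⊔ J with hI1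
    set I2 : Ideal a := Ideal.span {x ^ (m + 1)} ⊔ J with hI2
    set I3 : Ideal a := Ideal.span {x ^ m} ⊔ J with hI3
    have h23 : I2 ≤ I3 := by
      refine sup_le ?_ le_sup_right
      rw [Ideal.span_singleton_le_iff_mem, pow_succ]
      exact Ideal.mul_mem_right _ _ (Ideal.mem_sup_left (Ideal.mem_span_singleton_self _))
    let F0 : a →ₗ[a] a ⧸ I2 := (Ideal.Quotient.mkₐ a I2).toLinearMap.comp (LinearMap.mulLeft a (x ^ m))
    have hF0 : ∀ z, F0 z = Ideal.Quotient.mk I2 (x ^ m * z) := fun z => rfl
    have hker : ∀ z, F0 z = 0 ↔ z ∈ I1 := by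
      intro z
      rw [hF0, Ideal.Quotient.eq_zero_iff_mem]
      constructor
      · intro h
        obtain ⟨y, hy, j, hj, hyj⟩ := Submodule.mem_sup.1 h
        obtain ⟨u, rfl⟩ := Ideal.mem_span_singleton'.1 hy
        -- `x ^ m * (z - u * x) ∈ J`
        have h1 : (z - u * x) * x ^ p ∈ J := by
          have h2 : (z - u * x) * x ^ p = x ^ (p - m) * j := by
            have h3 : x ^ p = x ^ m * x ^ (p - m) := by
              rw [← pow_add]; congr 1; omega
            rw [h3]
            linear_combination - x ^ (p - m) * hyj
          rw [h2]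
          exact J.mul_mem_left _ hj
        have h4 := hx _ h1
        have h5 : Ideal.span {x ^ p} ⊔ J ≤ I1 := by
          refine sup_le ?_ le_sup_right
          rw [Ideal.span_singleton_le_iff_mem]
          have h6 : x ^ p = x ^ (p - 1) * x := by
            rw [← pow_succ]; congr 1; omega
          rw [h6]
          exact Ideal.mul_mem_left _ _ (Ideal.mem_sup_left (Ideal.mem_span_singleton_self _))
        have h7 : z = (z - u * x) + u * x := by ring
        rw [h7]
        exact I1.add_mem (h5 h4) (Ideal.mul_mem_left _ _
          (Ideal.mem_sup_left (Ideal.mem_span_singleton_self _)))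
      · intro h
        obtain ⟨y, hy, j, hj, rfl⟩ := Submodule.mem_sup.1 h
        obtain ⟨u, rfl⟩ := Ideal.mem_span_singleton'.1 hy
        have h1 : x ^ m * (u * x + j) = u * x ^ (m + 1) + x ^ m * j := by ring
        rw [h1]
        exact I2.add_mem (Ideal.mul_mem_left _ _
          (Ideal.mem_sup_left (Ideal.mem_span_singleton_self _)))
          (Ideal.mem_sup_right (J.mul_mem_left _ hj))
    let F : (a ⧸ I1) →ₗ[a] (a ⧸ I2) := Submodule.liftQ I1 F0 (by
      intro z hz
      rw [LinearMap.mem_ker]
      exact (hker z).2 hz)
    let G : (a ⧸ I2) →ₗ[a] (a ⧸ I3) := Submodule.mapQ I2 I3 LinearMap.id (by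
      intro z hz
      exact h23 hz)
    have hFi : Function.Injective F := by
      rw [← LinearMap.ker_eq_bot, LinearMap.ker_eq_bot']
      intro y hy
      obtain ⟨z, rfl⟩ := Submodule.Quotient.mk_surjective I1 y
      have h1 : F0 z = 0 := hy
      exact (Submodule.Quotient.mk_eq_zero _).2 ((hker z).1 h1)
    have hGs : Function.Surjective G := by
      intro y
      obtain ⟨z, rfl⟩ := Submodule.Quotient.mk_surjective I3 y
      exact ⟨Submodule.Quotient.mk z, rfl⟩
    have hex : Function.Exact F G := by
      intro y
      obtain ⟨z, rfl⟩ := Submodule.Quotient.mk_surjective I2 y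
      constructor
      · intro h
        have h1 : z ∈ I3 := (Submodule.Quotient.mk_eq_zero I3).1 h
        obtain ⟨w, hw, j, hj, rfl⟩ := Submodule.mem_sup.1 h1
        obtain ⟨u, rfl⟩ := Ideal.mem_span_singleton'.1 hw
        refine ⟨Submodule.Quotient.mk u, ?_⟩
        change F0 u = _
        rw [hF0]
        change Submodule.Quotient.mk (x ^ m * u) = _
        rw [Submodule.Quotient.eq]
        have h2 : x ^ m * u - (u * x ^ m + j) = - j := by ring
        rw [h2]
        exact I2.neg_mem (Ideal.mem_sup_right hj)
      · rintro ⟨w, hw⟩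
        obtain ⟨u, rfl⟩ := Submodule.Quotient.mk_surjective I1 w
        rw [← hw]
        change G (F0 u) = 0
        rw [hF0]
        change (Submodule.Quotient.mk (x ^ m * u) : a ⧸ I3) = 0
        rw [Submodule.Quotient.mk_eq_zero]
        exact Ideal.mul_mem_right _ _ (Ideal.mem_sup_left (Ideal.mem_span_singleton_self _))
    rw [Module.length_eq_add_of_exact F G hFi hGs hex, ih']
    push_cast
    ring

variable {ι : Type*} [Fintype ι] [DecidableEq ι]

/-- The lengths of the quotients by the `p`-th powers. -/
theorem length_ppow (x : ι → a) (p : ℕ) (hp : p ≠ 0) (hI : Ind fun i => x i ^ p) :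
    length a (a ⧸ Ideal.span (Set.range fun i => x i ^ p)) =
      (p ^ Fintype.card ι : ℕ) * length a (a ⧸ Ideal.span (Set.range x)) := by
  classical
  let f : Finset ι → ι → a := fun s i => if i ∈ s then x i ^ p else x i
  have hfI : ∀ s, Ind (f s) := by
    intro s
    induction h : (Finset.univ \ s).card generalizing s with
    | zero =>
      have h1 : s = Finset.univ := by
        rw [Finset.card_eq_zero, Finset.sdiff_eq_empty_iff_subset] at h
        exact Finset.univ_subset_iff.1 h
      subst h1
      have h2 : f Finset.univ = fun i => x i ^ p := by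
        funext i
        simp [f]
      rw [h2]
      exact hI
    | succ n ih =>
      obtain ⟨i, hi⟩ : (Finset.univ \ s).Nonempty := by
        rw [← Finset.card_pos]; omega
      have his : i ∉ s := (Finset.mem_sdiff.1 hi).2
      have h3 : (Finset.univ \ insert i s).card = n := by
        rw [Finset.sdiff_insert, Finset.card_erase_of_mem hi, h]
        rfl
      have h4 := (ih (insert i s) h3).update (i := i) (g := x i) (h := x i ^ (p - 1)) (by
        simp only [f, Finset.mem_insert, true_or, if_true]
        rw [← pow_succ']
        congr 1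
        omega)
      have h5 : Function.update (f (insert i s)) i (x i) = f s := by
        funext j
        by_cases hj : j = i
        · subst hj
          rw [Function.update_self]
          simp [f, his]
        · rw [Function.update_of_ne hj]
          simp [f, hj]
      rwa [h5] at h4
  have hmain : ∀ s : Finset ι, length a (a ⧸ Ideal.span (Set.range (f s))) =
      (p ^ s.card : ℕ) * length a (a ⧸ Ideal.span (Set.range x)) := by
    intro s
    induction s using Finset.induction_on with
    | empty =>
      have h1 : f ∅ = x := by
        funext i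
        simp [f]
      rw [h1]
      simp
    | insert i s his ih =>
      let J : Ideal a := Ideal.span (f s '' {j | j ≠ i})
      have hJ : f (insert i s) '' {j | j ≠ i} = f s '' {j | j ≠ i} := by
        ext y
        constructor
        · rintro ⟨j, hj, rfl⟩
          refine ⟨j, hj, ?_⟩
          have : j ≠ i := hj
          simp [f, this]
        · rintro ⟨j, hj, rfl⟩
          refine ⟨j, hj, ?_⟩
          have : j ≠ i := hj
          simp [f, this]
      have hsp : ∀ g : ι → a, Ideal.span (Set.range g) =
          Ideal.span {g i} ⊔ Ideal.span (g '' {j | j ≠ i}) := by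
        intro g
        rw [← Ideal.span_union]
        congr 1
        ext y
        constructor
        · rintro ⟨j, rfl⟩
          by_cases hj : j = i
          · subst hj
            exact Or.inl rfl
          · exact Or.inr ⟨j, hj, rfl⟩
        · rintro (h | ⟨j, -, rfl⟩)
          · exact ⟨i, h.symm⟩
          · exact ⟨j, rfl⟩
      have e1 : Ideal.span (Set.range (f (insert i s))) = Ideal.span {x i ^ p} ⊔ J := by
        rw [hsp, hJ]
        have : f (insert i s) i = x i ^ p := by simp [f]
        rw [this]
      have e2 : Ideal.span (Set.range (f s)) = Ideal.span {x i} ⊔ J := by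
        rw [hsp]
        have : f s i = x i := by simp [f, his]
        rw [this]
      have hcol : ∀ z, z * x i ^ p ∈ J → z ∈ Ideal.span {x i ^ p} ⊔ J := by
        intro z hz
        rw [← e1]
        refine (hfI (insert i s)).colon i ?_
        rw [hJ]
        have : f (insert i s) i = x i ^ p := by simp [f]
        rw [this]
        exact hz
      rw [e1, length_pow J (x i) p hcol p le_rfl, ← e2, ih, Finset.card_insert_of_notMem his]
      push_cast
      ring
  have h1 := hmain Finset.univ
  have h2 : f Finset.univ = fun i => x i ^ p := by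
    funext i
    simp [f]
  rw [h2] at h1
  rw [h1, Finset.card_univ]

end length

end Pool.Agent.K6.H44.QG
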