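import Pool.Agent.W418.LCI.Field
import Pool.Agent.W462.WD.Res
import Pool.Agent.W558.WD.All

/-!
Smooth modifications of affine varieties on which finitely many functions are comparable.
-/

set_option autoImplicit false
set_option linter.unusedVariables false
set_option linter.unusedSectionVars false

universe u

namespace Pool.Agent.K6.H44.QG

open Pool.Agent.W558 Pool.Agent.W418.LCI Pool.Agent.W462.WD.Res

/-- Smooth models over the affine variety `Spec R` with function field `E` on which the functions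
in the finite set `F` are pairwise comparable. -/
theorem exists_over {k E : Type u} [Field k] [Field E] [Algebra k E] (hLM : HasLM k E)
    (R : Subalgebra k E) (hRfg : R.FG)
    (hfrac : ∀ x : E, ∃ a ∈ R, ∃ b ∈ R, b ≠ 0 ∧ x = a * b⁻¹) (F : Finset E)
    (hF0 : ∀ x ∈ F, x ≠ 0) :
    ∃ (T I : Type) (_ : Finite T) (_ : Fintype I) (M : LM R R T I),
      ∀ t, ∀ x ∈ F, ∀ y ∈ F, x / y ∈ M.A t ∨ y / x ∈ M.A t := by
  classical
  obtain ⟨S0, hS0⟩ := hRfg
  -- the functions: generators of `R`, and the functions in `F`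
  let N1 := (S0.filter fun x => x ≠ 0)
  obtain ⟨ε1⟩ : Nonempty ({x // x ∈ N1} ≃ Fin N1.card) := ⟨N1.equivFin⟩
  obtain ⟨ε2⟩ : Nonempty ({x // x ∈ F} ≃ Fin F.card) := ⟨F.equivFin⟩
  let G := Fin N1.card
  let Φ := Fin F.card
  let g : G → E := fun b => (ε1.symm b).1
  have hg0 : ∀ b, g b ≠ 0 := fun b => (Finset.mem_filter.1 (ε1.symm b).2).2
  have hgR0 : ∀ b, g b ∈ R := by
    intro b
    rw [← hS0]
    exact Algebra.subset_adjoin (Finset.mem_coe.2 (Finset.mem_filter.1 (ε1.symm b).2).1)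
  have hRle : R ≤ Algebra.adjoin k (Set.range g) := by
    rw [← hS0, Algebra.adjoin_le_iff]
    intro x hx
    by_cases h0 : x = 0
    · rw [h0]
      exact Subalgebra.zero_mem _
    · refine Algebra.subset_adjoin ⟨ε1 ⟨x, Finset.mem_filter.2 ⟨hx, h0⟩⟩, ?_⟩
      change (ε1.symm (ε1 _)).1 = x
      rw [Equiv.symm_apply_apply]
  let ff : Φ → E := fun b => (ε2.symm b).1
  have hff0 : ∀ b, ff b ≠ 0 := fun b => hF0 _ (ε2.symm b).2
  let gg : G ⊕ Φ → E := Sum.elim g ff
  obtain ⟨T, I, iT, iI, M, Γ, hF, hFrc⟩ := hLM (G ⊕ Φ) gg (by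
    rintro (b | b)
    · exact hg0 b
    · exact hff0 b)
  have hT : Nonempty T := by
    obtain ⟨t, -⟩ := M.cv ⊤ (fun a _ => trivial)
    exact ⟨t⟩
  -- principalize
  let g' : Option (G ⊕ Φ) → E := fun o => o.elim 1 gg
  let Γ0 : Option (G ⊕ Φ) → I → ℤ := fun o => o.elim 0 Γ
  have hF0' : Fn M g' Γ0 := by
    rintro (_ | b) t
    · refine ⟨1, one_ne_zero, (M.A t).one_mem, by rw [inv_one]; exact (M.A t).one_mem, ?_⟩
      simp [g', Γ0]
    · exact hF b t
  obtain ⟨T1, I1, iT1, iI1, M1, π, Θ, hE, hC⟩ := wd_ovp k E ⊥ ⊤ T I (Option (G ⊕ Φ)) M Γ0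
  let Γ1 : Option (G ⊕ Φ) → I1 → ℤ := fun a i' => ∑ i, Θ i' i * Γ0 a i
  have hF1 : Fn M1 g' Γ1 := fn_ov hE hF0'
  have hT1 : Nonempty T1 := by
    obtain ⟨t, -⟩ := M1.cv ⊤ (fun a _ => trivial)
    exact ⟨t⟩
  have hcmp0 : ∀ t a b, g' b / g' a ∈ M1.A t ∨ g' a / g' b ∈ M1.A t := by
    intro t a b
    rcases hC a b t with h1 | h1
    · left
      exact div_mem_of_le M1 t g' Γ1 hF1 (a := a) (b := b) h1
    · right
      exact div_mem_of_le M1 t g' Γ1 hF1 (a := b) (b := a) h1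
  have hcmp : ∀ t b, g b ∈ M1.A t ∨ (g b)⁻¹ ∈ M1.A t := by
    intro t b
    rcases hcmp0 t none (some (Sum.inl b)) with h1 | h1
    · left
      have h3 : g' (some (Sum.inl b)) / g' none = g b := by simp [g', gg]
      rwa [h3] at h1
    · right
      have h3 : g' none / g' (some (Sum.inl b)) = (g b)⁻¹ := by simp [g', gg]
      rwa [h3] at h1
  -- the functions which are inverted
  let s : T1 → Finset G := fun t => Finset.univ.filter fun b => g b ∉ M1.A t
  have hs : ∀ t b, b ∈ s t ↔ g b ∉ M1.A t := by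
    intro t b
    simp [s]
  let r : T1 → E := fun t => ∏ b ∈ s t, (g b)⁻¹
  have hrmem : ∀ t, r t ∈ M1.A t := by
    intro t
    refine (M1.A t).prod_mem fun b hb => ?_
    exact (hcmp t b).resolve_left ((hs t b).1 hb)
  have hr0 : ∀ t, r t ≠ 0 := fun t =>
    Finset.prod_ne_zero_iff.2 fun b _ => inv_ne_zero (hg0 b)
  have hrR : ∀ t, (r t)⁻¹ ∈ R := by
    intro t
    have h1 : (r t)⁻¹ = ∏ b ∈ s t, g b := by
      simp only [r]
      rw [← Finset.prod_inv_distrib]
      exact Finset.prod_congr rfl fun b _ => inv_inv _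
    rw [h1]
    exact R.prod_mem fun b _ => hgR0 b
  let C : T1 → Subalgebra k E := fun t => adj (M1.A t) (r t)⁻¹
  have hleC : ∀ t, M1.A t ≤ C t := fun t => le_adj _ _
  have hrC : ∀ t, (r t)⁻¹ ∈ C t := fun t => self_mem_adj _ _
  have hgC : ∀ t, ∀ b, g b ∈ C t := by
    intro t b
    by_cases h : g b ∈ M1.A t
    · exact hleC t h
    · have h1 : b ∈ s t := (hs t b).2 h
      have h2 : r t = (g b)⁻¹ * ∏ b' ∈ (s t).erase b, (g b')⁻¹ := (Finset.mul_prod_erase _ _ h1).symm
      have h3 : ∏ b' ∈ (s t).erase b, (g b')⁻¹ ∈ M1.A t := by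
        refine (M1.A t).prod_mem fun b' hb' => ?_
        exact (hcmp t b').resolve_left ((hs t b').1 (Finset.mem_of_mem_erase hb'))
      have h4 : g b = (∏ b' ∈ (s t).erase b, (g b')⁻¹) * (r t)⁻¹ := by
        have h5 : ∏ b' ∈ (s t).erase b, (g b')⁻¹ ≠ 0 :=
          Finset.prod_ne_zero_iff.2 fun b _ => inv_ne_zero (hg0 b)
        rw [h2, mul_inv, inv_inv, mul_left_comm, mul_inv_cancel₀ h5, mul_one]
      rw [h4]
      exact (C t).mul_mem (hleC t h3) (hrC t)
  have hRC : ∀ t, R ≤ C t := by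
    intro t
    refine hRle.trans (Algebra.adjoin_le ?_)
    rintro _ ⟨b, rfl⟩
    exact hgC t b
  -- generators
  have hfg : ∀ t, ∃ y : Finset E, M1.A t = Algebra.adjoin k (y : Set E) := by
    intro t
    have := M1.sm t
    have h1 : Algebra.FiniteType k (M1.A t) := inferInstance
    obtain ⟨y, hy⟩ := (M1.A t).fg_iff_finiteType.2 h1
    exact ⟨y, hy.symm⟩
  choose y hy using hfg
  have : Fintype T1 := Fintype.ofFinite T1
  obtain ⟨c, hcR, hc0, hc⟩ := Pool.Agent.W22.W558Restr.exists_den R hfrac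
    (Finset.univ.image M1.H ∪ Finset.univ.biUnion fun t => (y t).image fun z => M1.H t * z)
  have hcH : ∀ t, c * M1.H t ∈ R := fun t =>
    hc _ (Finset.mem_union_left _ (Finset.mem_image_of_mem _ (Finset.mem_univ t)))
  have hcHy : ∀ t, ∀ z ∈ y t, c * (M1.H t * z) ∈ R := fun t z hz =>
    hc _ (Finset.mem_union_right _ (Finset.mem_biUnion.2 ⟨t, Finset.mem_univ t,
      Finset.mem_image_of_mem _ hz⟩))
  have hdn1 : ∀ t, ∀ f ∈ M1.A t, ∃ n : ℕ, (c * M1.H t) ^ n * f ∈ R := by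
    intro t f hf
    have hmono : ∀ (n m : ℕ) (f : E), n ≤ m → (c * M1.H t) ^ n * f ∈ R →
        (c * M1.H t) ^ m * f ∈ R := by
      intro n m f hnm h
      obtain ⟨e, rfl⟩ := Nat.exists_eq_add_of_le hnm
      rw [add_comm, pow_add, mul_assoc]
      exact R.mul_mem (R.pow_mem (hcH t) e) h
    rw [hy t] at hf
    induction hf using Algebra.adjoin_induction with
    | mem x hx =>
      refine ⟨1, ?_⟩
      rw [pow_one, mul_assoc]
      exact hcHy t x hx
    | algebraMap a => exact ⟨0, by rw [pow_zero, one_mul]; exact R.algebraMap_mem a⟩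
    | add a b _ _ ha hb =>
      obtain ⟨n, hn⟩ := ha
      obtain ⟨m, hm⟩ := hb
      refine ⟨max n m, ?_⟩
      rw [mul_add]
      exact R.add_mem (hmono _ _ _ (le_max_left _ _) hn) (hmono _ _ _ (le_max_right _ _) hm)
    | mul a b _ _ ha hb =>
      obtain ⟨n, hn⟩ := ha
      obtain ⟨m, hm⟩ := hb
      refine ⟨n + m, ?_⟩
      rw [pow_add, mul_mul_mul_comm]
      exact R.mul_mem hn hm
  have hcan : ∀ (t : T1) (n : ℕ) (f : E), f = f * r t ^ n * ((r t)⁻¹) ^ n := by
    intro t n f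
    rw [mul_assoc, ← mul_pow, mul_inv_cancel₀ (hr0 t), one_pow, mul_one]
  have hrat : ∀ t t', (c * M1.H t') / (c * M1.H t) = M1.H t' / M1.H t := by
    intro t t'
    rw [mul_div_mul_left _ _ hc0]
  let M' : LM R R T1 I1 :=
    { A := C
      H := fun t => c * M1.H t
      x := M1.x
      sm := fun t => by
        have := M1.sm t
        exact smooth_adj_inv (hrmem t) (hr0 t)
      base := hRC
      H0 := fun t => mul_ne_zero hc0 (M1.H0 t)
      HR := hcH
      rt := fun t t' => by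
        rw [hrat]
        exact hleC t (M1.rt t t')
      gl := by
        intro t t' f hf
        obtain ⟨n, hn⟩ := (mem_adj_inv (hrmem t') (hr0 t')).1 hf
        obtain ⟨m, hm⟩ := M1.gl t t' _ hn
        refine ⟨m, ?_⟩
        rw [hrat]
        have h1 : (M1.H t' / M1.H t) ^ m * f =
            (M1.H t' / M1.H t) ^ m * (f * r t' ^ n) * ((r t')⁻¹) ^ n := by
          rw [mul_assoc, ← hcan]
        rw [h1]
        exact (C t).mul_mem (hleC t hm) ((C t).pow_mem (hRC t (hrR t')) n)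
      dn := by
        intro t f hf
        obtain ⟨n, hn⟩ := (mem_adj_inv (hrmem t) (hr0 t)).1 hf
        obtain ⟨m, hm⟩ := hdn1 t _ hn
        refine ⟨m, ?_⟩
        have h1 : (c * M1.H t) ^ m * f = (c * M1.H t) ^ m * (f * r t ^ n) * ((r t)⁻¹) ^ n := by
          rw [mul_assoc, ← hcan]
        rw [h1]
        exact R.mul_mem hm (R.pow_mem (hrR t) n)
      cv := by
        intro V hV
        obtain ⟨t, ht⟩ := M1.cv V (fun a ha => hV a ((bot_le : (⊥ : Subalgebra k E) ≤ R) ha))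
        refine ⟨t, ?_⟩
        refine adj_induction (M1.A t) (r t)⁻¹ (p := fun f => f ∈ V) (fun a ha => ht a ha)
          (fun a b ha hb => V.add_mem _ _ ha hb)
          (fun a ha => V.mul_mem _ _ ha (hV _ (hrR t)))
      xA := fun t i => hleC t (M1.xA t i)
      x0 := M1.x0
      gi := by
        intro t t' i
        obtain ⟨n, hn⟩ := M1.gi t t' i
        exact ⟨n, by rw [hrat]; exact hleC t hn⟩
      snc := fun t => SNC.loc (M1.snc t) (M1.xA t) (hrmem t) (hr0 t) }
  refine ⟨T1, I1, iT1, iI1, M', fun t x hx y hy => ?_⟩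
  have h1 := hcmp0 t (some (Sum.inr (ε2 ⟨y, hy⟩))) (some (Sum.inr (ε2 ⟨x, hx⟩)))
  have h2 : ∀ z (hz : z ∈ F), g' (some (Sum.inr (ε2 ⟨z, hz⟩))) = z := by
    intro z hz
    change (ε2.symm (ε2 _)).1 = z
    rw [Equiv.symm_apply_apply]
  rw [h2, h2] at h1
  exact h1.imp (fun h => hleC t h) (fun h => hleC t h)

end Pool.Agent.K6.H44.QG
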