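import Pool.Agent.K6.H44.QG.Bs
import Pool.Agent.K6.H44.QG.Model
import Pool.Agent.W558.Atlas

/-!
Resolution of quotients of smooth families by finite groups of sections.
-/

set_option autoImplicit false
set_option linter.unusedSectionVars false

open AlgebraicGeometry CategoryTheory

namespace Pool.Agent.K6.H44.QG

open Pool.Agent.W558 Pool.Agent.W418.LCI

section main

variable {k R E A A0 Γ : Type} [Field k] [CommRing R] [IsDomain R] [Algebra k R]
  [Field E] [Algebra R E] [IsFractionRing R E] [Algebra k E] [IsScalarTower k R E]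
  [CommRing A] [IsDomain A] [Algebra R A] [Algebra k A] [IsScalarTower k R A] [FaithfulSMul R A]
  [Group Γ] (ρ : Γ →* (A ≃ₐ[R] A))
  [CommRing A0] [IsDomain A0] [Algebra k A0] [Algebra A0 A] [IsScalarTower k A0 A]
  [FaithfulSMul A0 A]

/-- The charts as algebras over the base. -/
def chartR {S : Subalgebra k E} (h : (IsScalarTower.toAlgHom k R E).range ≤ S) :
    Subalgebra R E where
  carrier := S
  mul_mem' := fun ha hb => S.mul_mem ha hb
  add_mem' := fun ha hb => S.add_mem ha hb
  algebraMap_mem' := fun r => h ⟨r, rfl⟩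

lemma chartR_smooth {S : Subalgebra k E} (h : (IsScalarTower.toAlgHom k R E).range ≤ S)
    (hS : Algebra.Smooth k S) : Algebra.Smooth k (chartR h) := by
  let e : S ≃ₐ[k] chartR h :=
    { toFun := fun x => ⟨x, x.2⟩
      invFun := fun x => ⟨x, x.2⟩
      left_inv := fun _ => rfl
      right_inv := fun _ => rfl
      map_mul' := fun _ _ => rfl
      map_add' := fun _ _ => rfl
      commutes' := fun c => by
        apply Subtype.ext
        rfl }
  exact Algebra.Smooth.of_equiv e

lemma mem_chartR {S : Subalgebra k E} (h : (IsScalarTower.toAlgHom k R E).range ≤ S) {x : E} :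
    x ∈ chartR h ↔ x ∈ S := Iff.rfl

/-- Resolution of the quotient. -/
theorem hasResolution (p : ℕ) [Fact p.Prime] [PerfectField k] [CharP k p]
    [Algebra.FiniteType k R] (hLM : HasLM k E) [Algebra.Smooth R A] [Fintype Γ] [DecidableEq Γ]
    (H : Subalgebra R (Γ → R)) (hfg : (Subalgebra.toSubmodule H).FG)
    (hinv : ∀ f ∈ H, (fun γ => f γ⁻¹) ∈ H) (hcop : ∀ f ∈ H, Cop (Subalgebra.toSubmodule H) f)
    (hsep : ∀ γ0, ∃ f ∈ H, f γ0 ≠ 0 ∧ ∀ γ ≠ γ0, f γ = 0)
    (hco : ∀ a, (fun γ => ρ γ a) ∈ HA A H)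
    (hfr : ∀ h ∈ H, (fun γ => algebraMap R A (h γ)) ∈ OA ρ)
    (h0 : ∀ a : A, (∀ γ, ρ γ a = a) ↔ ∃ c : A0, algebraMap A0 A c = a)
    [Algebra.IsIntegral A0 A] :
    Pool.Agent.H920R2.HasResolution (X := Spec (CommRingCat.of A0))
      (Spec.map (CommRingCat.ofHom (algebraMap k A0))) := by
  classical
  -- the function field
  let K := FractionRing A
  have hRAi : Function.Injective (algebraMap R A) := FaithfulSMul.algebraMap_injective R A
  have hRK : Function.Injective (algebraMap R K) := by
    rw [IsScalarTower.algebraMap_eq R A K]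
    exact (IsFractionRing.injective A K).comp hRAi
  let f : E →+* K := IsFractionRing.lift hRK
  let _ : Algebra E K := f.toAlgebra
  have hT1 : IsScalarTower R E K := IsScalarTower.of_algebraMap_eq fun r =>
    (IsFractionRing.lift_algebraMap hRK r).symm
  have hT2 : IsScalarTower k R K := IsScalarTower.of_algebraMap_eq fun c => by
    rw [IsScalarTower.algebraMap_apply k A K, IsScalarTower.algebraMap_apply k R A,
      ← IsScalarTower.algebraMap_apply R A K]
  -- the model
  obtain ⟨F, hF0, hF⟩ := exists_family H hfg hinv hcop hsep E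
  let R' : Subalgebra k E := (IsScalarTower.toAlgHom k R E).range
  have hR'fg : R'.FG := by
    have h1 : (⊤ : Subalgebra k R).FG := Algebra.FiniteType.out
    have h2 := h1.map (IsScalarTower.toAlgHom k R E)
    rwa [Algebra.map_top] at h2
  have hfrac : ∀ x : E, ∃ a ∈ R', ∃ b ∈ R', b ≠ 0 ∧ x = a * b⁻¹ := by
    intro x
    obtain ⟨a, b, hb, rfl⟩ := IsFractionRing.div_surjective R x
    exact ⟨algebraMap R E a, ⟨a, rfl⟩, algebraMap R E b, ⟨b, rfl⟩,
      IsFractionRing.to_map_ne_zero_of_mem_nonZeroDivisors hb, div_eq_mul_inv _ _⟩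
  obtain ⟨T, I, iT, iI, M, hM⟩ := exists_over hLM R' hR'fg hfrac F hF0
  let S : T → Subalgebra R E := fun t => chartR (M.base t)
  let g : A0 →ₐ[k] K := (IsScalarTower.toAlgHom k A K).comp (IsScalarTower.toAlgHom k A0 A)
  have hg : Function.Injective g :=
    (IsFractionRing.injective A K).comp (FaithfulSMul.algebraMap_injective A0 A)
  have hgA : ∀ c, g c = algebraMap A K (algebraMap A0 A c) := fun _ => rfl
  have hfix : ∀ a : A, (∀ γ, sg ρ E K γ (algebraMap A K a) = algebraMap A K a) →
      ∃ c, algebraMap A K a = g c := by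
    intro a ha
    obtain ⟨c, hc⟩ := (h0 a).1 fun γ => by
      have h1 := ha γ
      rw [sg_A] at h1
      exact IsFractionRing.injective A K h1
    exact ⟨c, by rw [hgA, hc]⟩
  have hgfix : ∀ c γ, sg ρ E K γ (g c) = g c := by
    intro c γ
    rw [hgA, sg_A, (h0 _).2 ⟨c, rfl⟩ γ]
  have hHr : ∀ t, ∃ r : R, M.H t = algebraMap R E r := by
    intro t
    obtain ⟨r, hr⟩ := M.HR t
    exact ⟨r, hr.symm⟩
  have hEE : ∀ r : R, algebraMap E K (algebraMap R E r) = algebraMap A K (algebraMap R A r) := by
    intro r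
    rw [← IsScalarTower.algebraMap_apply, ← IsScalarTower.algebraMap_apply]
  have hrat : ∀ t t', algebraMap E K (M.H t') / algebraMap E K (M.H t) ∈ BB k A K (S t) := by
    intro t t'
    rw [← map_div₀]
    exact BB_E k K (M.rt t t')
  have hratfix : ∀ t t' γ, sg ρ E K γ (algebraMap E K (M.H t') / algebraMap E K (M.H t)) =
      algebraMap E K (M.H t') / algebraMap E K (M.H t) := by
    intro t t' γ
    rw [map_div₀, sg_E, sg_E]
  refine hasResolution_of_atl (L := K) (T := T) g hg (C := fun t => CC k K ρ (S t))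
    (H := fun t => algebraMap E K (M.H t)) ?_
  refine
    { sm := ?_
      aa := ?_
      H0 := ?_
      hA := ?_
      rt := ?_
      gl := ?_
      dn := ?_
      cv := ?_ }
  · intro t
    have h1 := chartR_smooth (M.base t) (M.sm t)
    obtain ⟨d, hdS, hd0, hd1, hd2⟩ := hF (S t).toSubring (fun r => (S t).algebraMap_mem r)
      (fun x hx y hy => hM t x hx y hy)
    exact CC_smooth k K ρ p H hco hfr (S t) d hdS hd0 hd1 hd2
  · intro t a
    exact ⟨BB_A k K (S t) _, fun γ => hgfix a γ⟩
  · intro t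
    exact (map_ne_zero _).2 (M.H0 t)
  · intro t
    obtain ⟨r, hr⟩ := hHr t
    obtain ⟨c, hc⟩ := hfix (algebraMap R A r) fun γ => by rw [← hEE, sg_E]
    exact ⟨c, by rw [← hc, hr, hEE]⟩
  · intro t t'
    exact ⟨hrat t t', fun γ => hratfix t t' γ⟩
  · intro t t' x hx
    have h1 : ∃ n : ℕ, (algebraMap E K (M.H t') / algebraMap E K (M.H t)) ^ n * x ∈
        BB k A K (S t) := by
      refine BB_induction k K hx.1 (fun x => ∃ n : ℕ,
        (algebraMap E K (M.H t') / algebraMap E K (M.H t)) ^ n * x ∈ BB k A K (S t)) ?_ ?_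
      · intro s hs a
        obtain ⟨n, hn⟩ := M.gl t t' s hs
        refine ⟨n, ?_⟩
        rw [← mul_assoc, ← map_div₀, ← map_pow, ← map_mul]
        exact (BB k A K (S t)).mul_mem (BB_E k K hn) (BB_A k K (S t) a)
      · rintro x y ⟨n, hn⟩ ⟨m, hm⟩
        refine ⟨n + m, ?_⟩
        have h2 : (algebraMap E K (M.H t') / algebraMap E K (M.H t)) ^ (n + m) * (x + y) =
            (algebraMap E K (M.H t') / algebraMap E K (M.H t)) ^ m *
              ((algebraMap E K (M.H t') / algebraMap E K (M.H t)) ^ n * x) +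
            (algebraMap E K (M.H t') / algebraMap E K (M.H t)) ^ n *
              ((algebraMap E K (M.H t') / algebraMap E K (M.H t)) ^ m * y) := by ring
        rw [h2]
        exact (BB k A K (S t)).add_mem
          ((BB k A K (S t)).mul_mem ((BB k A K (S t)).pow_mem (hrat t t') m) hn)
          ((BB k A K (S t)).mul_mem ((BB k A K (S t)).pow_mem (hrat t t') n) hm)
    obtain ⟨n, hn⟩ := h1
    refine ⟨n, hn, fun γ => ?_⟩
    rw [map_mul, map_pow, hratfix, hx.2]
  · intro t x hx
    obtain ⟨r, hr⟩ := hHr t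
    have h1 : ∃ (n : ℕ) (a : A), (algebraMap E K (M.H t)) ^ n * x = algebraMap A K a := by
      refine BB_induction k K hx.1 (fun x => ∃ (n : ℕ) (a : A),
        (algebraMap E K (M.H t)) ^ n * x = algebraMap A K a) ?_ ?_
      · intro s hs a
        obtain ⟨n, r', hr'⟩ := M.dn t s hs
        refine ⟨n, algebraMap R A r' * a, ?_⟩
        have h2 : algebraMap R E r' = M.H t ^ n * s := hr'
        rw [← mul_assoc, ← map_pow, ← map_mul, ← h2, hEE, map_mul]
      · rintro x y ⟨n, a, ha⟩ ⟨m, b, hb⟩
        refine ⟨n + m, algebraMap R A r ^ m * a + algebraMap R A r ^ n * b, ?_⟩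
        have h2 : (algebraMap E K (M.H t)) ^ (n + m) * (x + y) =
            (algebraMap E K (M.H t)) ^ m * ((algebraMap E K (M.H t)) ^ n * x) +
            (algebraMap E K (M.H t)) ^ n * ((algebraMap E K (M.H t)) ^ m * y) := by ring
        rw [h2, ha, hb, hr, hEE]
        simp only [map_add, map_mul, map_pow]
    obtain ⟨n, a, ha⟩ := h1
    obtain ⟨c, hc⟩ := hfix a fun γ => by
      rw [← ha, map_mul, map_pow, sg_E, hx.2]
    exact ⟨n, c, by rw [ha, hc]⟩
  · intro V hV
    obtain ⟨t, ht⟩ := M.cv (V.comap (algebraMap E K)) (by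
      rintro _ ⟨r, rfl⟩
      change algebraMap E K (algebraMap R E r) ∈ V
      rw [hEE]
      obtain ⟨c, hc⟩ := hfix (algebraMap R A r) fun γ => by rw [← hEE, sg_E]
      rw [hc]
      exact hV c)
    refine ⟨t, fun x hx => ?_⟩
    have hint : ∀ a : A, algebraMap A K a ∈ V := by
      intro a
      obtain ⟨P, hP, hPa⟩ := Algebra.IsIntegral.isIntegral (R := A0) a
      let gV : A0 →+* V := g.toRingHom.codRestrict V.toSubring hV
      have h1 : (algebraMap V K).comp gV = (algebraMap A K).comp (algebraMap A0 A) :=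
        RingHom.ext fun _ => rfl
      have h2 : IsIntegral V (algebraMap A K a) := by
        refine ⟨P.map gV, hP.map _, ?_⟩
        rw [Polynomial.eval₂_map, h1, ← Polynomial.hom_eval₂, hPa, map_zero]
      obtain ⟨v, hv⟩ := IsIntegrallyClosed.isIntegral_iff.1 h2
      rw [← hv]
      exact v.2
    refine BB_induction k K hx.1 (fun x => x ∈ V) ?_ ?_
    · intro s hs a
      exact V.mul_mem _ _ (ht s hs) (hint a)
    · intro x y hx hy
      exact V.add_mem _ _ hx hy

end main

end Pool.Agent.K6.H44.QG
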