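import Pool.Agent.K6.H44.QG.Lech

/-!
Descent of regularity along flat local homomorphisms, in characteristic `p`, if the Frobenius
endomorphism upstairs is flat.
-/

set_option autoImplicit false

namespace Pool.Agent.K6.H44.QG

open Module IsLocalRing

/-- The ring `a`, regarded as an algebra over `a` by means of the Frobenius endomorphism. -/
def Fr (_p : ℕ) (a : Type*) := a

instance (p : ℕ) (a : Type*) [CommRing a] : CommRing (Fr p a) := inferInstanceAs (CommRing a)

instance (p : ℕ) (a : Type*) [CommRing a] [IsLocalRing a] : IsLocalRing (Fr p a) :=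
  inferInstanceAs (IsLocalRing a)

instance (p : ℕ) (a : Type*) [CommRing a] [IsNoetherianRing a] : IsNoetherianRing (Fr p a) :=
  inferInstanceAs (IsNoetherianRing a)

instance (p : ℕ) (a : Type*) [CommRing a] [ExpChar a p] : ExpChar (Fr p a) p :=
  inferInstanceAs (ExpChar a p)

noncomputable instance (p : ℕ) (a : Type*) [CommRing a] [ExpChar a p] : Algebra a (Fr p a) :=
  RingHom.toAlgebra (S := Fr p a) (frobenius a p)

/-- The identity. -/
def toFr (p : ℕ) (a : Type*) [CommRing a] : a ≃+* Fr p a := RingEquiv.refl a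

lemma algebraMap_Fr {p : ℕ} {a : Type*} [CommRing a] [ExpChar a p] (x : a) :
    algebraMap a (Fr p a) x = toFr p a x ^ p := rfl

lemma flat_Fr_iff {p : ℕ} {a : Type*} [CommRing a] [ExpChar a p] :
    Module.Flat a (Fr p a) ↔ (frobenius a p).Flat := Iff.rfl

/-- Minimal generators of the maximal ideal. -/
theorem exists_min (c : Type*) [CommRing c] [IsLocalRing c] [IsNoetherianRing c] :
    ∃ s : Finset c, s.card = (maximalIdeal c).spanFinrank ∧
      Ideal.span (s : Set c) = maximalIdeal c ∧
      ∀ r : s → c, ∑ i, r i * (i : c) = 0 → ∀ i, r i ∈ maximalIdeal c := by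
  classical
  have hfg : Submodule.FG (maximalIdeal c) := IsNoetherian.noetherian _
  obtain ⟨s, hs, hs2⟩ := Submodule.FG.exists_span_finset_card_eq_spanFinrank hfg
  refine ⟨s, hs, hs2, ?_⟩
  intro r hr i
  by_contra hi
  have hu : IsUnit (r i) := by
    by_contra h
    exact hi ((mem_maximalIdeal _).2 h)
  obtain ⟨u, hu⟩ := hu
  have h1 : (i : c) ∈ Ideal.span ((s.erase i : Finset c) : Set c) := by
    have h2 : (i : c) = - ∑ j ∈ Finset.univ.erase i, (↑u⁻¹ * r j) * (j : c) := by
      rw [← Finset.add_sum_erase _ _ (Finset.mem_univ i)] at hr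
      have h3 : ∑ j ∈ Finset.univ.erase i, (↑u⁻¹ * r j) * (j : c) =
          ↑u⁻¹ * ∑ j ∈ Finset.univ.erase i, r j * (j : c) := by
        rw [Finset.mul_sum]
        exact Finset.sum_congr rfl fun j _ => by ring
      have h4 : (↑u⁻¹ : c) * r i = 1 := by rw [← hu]; exact u.inv_mul
      rw [h3]
      have h5 : ∑ j ∈ Finset.univ.erase i, r j * (j : c) = - (r i * i) := by
        linear_combination hr
      rw [h5]
      linear_combination - (i : c) * h4
    refine (congrArg (fun z => z ∈ Ideal.span ((s.erase (i : c) : Finset c) : Set c)) h2).mpr ?_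
    refine Ideal.neg_mem_iff _ |>.2 (Ideal.sum_mem _ fun j hj => Ideal.mul_mem_left _ _
      (Ideal.subset_span ?_))
    rw [Finset.coe_erase]
    refine ⟨j.2, ?_⟩
    intro h
    exact (Finset.ne_of_mem_erase hj) (Subtype.ext h)
  have h2 : Ideal.span ((s.erase i : Finset c) : Set c) = maximalIdeal c := by
    apply le_antisymm
    · rw [← hs2]
      exact Ideal.span_mono (Finset.coe_subset.2 (Finset.erase_subset _ _))
    · rw [← hs2]
      refine Ideal.span_le.2 ?_
      intro j hj
      by_cases h : j = i
      · subst h; exact h1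
      · exact Ideal.subset_span (Finset.mem_coe.2 (Finset.mem_erase.2 ⟨h, hj⟩))
  have h3 : (maximalIdeal c).spanFinrank ≤ (s.erase (i : c)).card := by
    rw [← h2]
    refine (Submodule.spanFinrank_span_le_ncard_of_finite (Finset.finite_toSet _)).trans ?_
    rw [Set.ncard_coe_finset]
  rw [Finset.card_erase_of_mem i.2, ← hs] at h3
  have h4 : 0 < s.card := Finset.card_pos.2 ⟨i, i.2⟩
  omega

/-- Relations after a flat base change. -/
theorem ind_of_flat {c a : Type*} [CommRing c] [CommRing a] [Algebra c a] [Module.Flat c a]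
    {ι : Type*} [Fintype ι] (x : ι → c)
    (hx : ∀ r : ι → c, ∑ i, r i * x i = 0 → ∀ i, r i ∈ Ideal.span (Set.range x)) :
    Ind fun i => algebraMap c a (x i) := by
  intro r hr
  have h1 : ∑ i, x i • r i = 0 := by
    rw [← hr]
    exact Finset.sum_congr rfl fun i _ => by rw [Algebra.smul_def, mul_comm]
  obtain ⟨k, A, y, h2, h3⟩ := Module.Flat.isTrivialRelation_of_sum_smul_eq_zero (R := c) (M := a)
    (f := x) (x := r) h1
  intro i
  rw [h2 i]
  refine Ideal.sum_mem _ fun j _ => ?_
  have h4 : A i j ∈ Ideal.span (Set.range x) := by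
    refine hx (fun i => A i j) ?_ i
    rw [← h3 j]
    exact Finset.sum_congr rfl fun i _ => mul_comm _ _
  rw [Algebra.smul_def]
  refine Ideal.mul_mem_right _ _ ?_
  have h5 : algebraMap c a (A i j) ∈ (Ideal.span (Set.range x)).map (algebraMap c a) :=
    Ideal.mem_map_of_mem _ h4
  rw [Ideal.map_span, ← Set.range_comp] at h5
  exact h5

theorem Ind.ppow {p : ℕ} {a : Type*} [CommRing a] [ExpChar a p] [Module.Flat a (Fr p a)]
    {ι : Type*} [Fintype ι] {x : ι → a} (hx : Ind x) : Ind fun i => x i ^ p :=
  ind_of_flat (c := a) (a := Fr p a) x hx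

/-- The lengths of the quotients by the ideals `I ^ [p]`. -/
theorem length_frob {p : ℕ} {a : Type*} [CommRing a] [ExpChar a p] [IsLocalRing a]
    [Module.Flat a (Fr p a)] {ι κ : Type*} (x : ι → a) (y : κ → a)
    (hy : Ideal.span (Set.range y) = maximalIdeal a) (hp : p ≠ 0) :
    length a (a ⧸ Ideal.span (Set.range fun i => x i ^ p)) =
      length a (a ⧸ Ideal.span (Set.range x)) *
        length a (a ⧸ Ideal.span (Set.range fun i => y i ^ p)) := by
  have hloc : IsLocalHom (algebraMap a (Fr p a)) := by
    refine ⟨fun z hz => ?_⟩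
    rw [algebraMap_Fr] at hz
    have h1 : IsUnit (toFr p a z) := (isUnit_pow_iff hp).1 hz
    exact h1
  have h1 := IsLocalRing.length_baseChange (A := a) (B := Fr p a)
    (M := a ⧸ Ideal.span (Set.range x))
  have h2 := (Algebra.TensorProduct.quotIdealMapEquivTensorQuot (Fr p a)
    (Ideal.span (Set.range x))).toLinearEquiv.length_eq
  have h3 : (Ideal.span (Set.range x)).map (algebraMap a (Fr p a)) =
      Ideal.span (Set.range fun i => toFr p a (x i) ^ p) := by
    rw [Ideal.map_span, ← Set.range_comp]
    rfl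
  have h4 : (maximalIdeal a).map (algebraMap a (Fr p a)) =
      Ideal.span (Set.range fun i => toFr p a (y i) ^ p) := by
    rw [← hy, Ideal.map_span, ← Set.range_comp]
    rfl
  rw [h3] at h2
  rw [← h2, h4] at h1
  exact h1

/-- Descent of the embedding dimension. -/
theorem spanFinrank_eq {p : ℕ} [Fact p.Prime] {c a : Type*} [CommRing c] [CommRing a]
    [ExpChar a p] [IsLocalRing c] [IsLocalRing a] [IsNoetherianRing c] [IsNoetherianRing a]
    [Algebra c a] [Module.Flat c a] [IsLocalHom (algebraMap c a)] [Module.Flat a (Fr p a)]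
    (hfin : length a (a ⧸ (maximalIdeal c).map (algebraMap c a)) ≠ ⊤) :
    (maximalIdeal c).spanFinrank = (maximalIdeal a).spanFinrank := by
  classical
  have hp : p ≠ 0 := (Fact.out : p.Prime).ne_zero
  obtain ⟨s, hs, hs2, hs3⟩ := exists_min c
  obtain ⟨t, ht, ht2, ht3⟩ := exists_min a
  have hs2' : Ideal.span (Set.range fun i : s => (i : c)) = maximalIdeal c := by
    rw [← hs2]
    congr 1
    exact Subtype.range_coe
  have ht2' : Ideal.span (Set.range fun i : t => (i : a)) = maximalIdeal a := by
    rw [← ht2]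
    congr 1
    exact Subtype.range_coe
  have hI1 : Ind fun i : s => algebraMap c a (i : c) := ind_of_flat _ (by rwa [hs2'])
  have hI2 : Ind fun i : t => (i : a) := by
    intro r hr i
    rw [ht2']
    exact ht3 r hr i
  have e1 := length_ppow (fun i : s => algebraMap c a (i : c)) p hp hI1.ppow
  have e2 := length_ppow (fun i : t => (i : a)) p hp hI2.ppow
  have e3 := length_frob (p := p) (fun i : s => algebraMap c a (i : c)) (fun i : t => (i : a))
    ht2' hp
  have e4 : Ideal.span (Set.range fun i : s => algebraMap c a (i : c)) =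
      (maximalIdeal c).map (algebraMap c a) := by
    rw [← hs2', Ideal.map_span, ← Set.range_comp]
    rfl
  have e5 : length a (a ⧸ Ideal.span (Set.range fun i : t => (i : a))) = 1 := by
    rw [ht2']
    have : IsSimpleModule a (a ⧸ maximalIdeal a) := by
      rw [isSimpleModule_iff_isCoatom]
      exact (maximalIdeal.isMaximal a).out
    exact Module.length_eq_one _ _
  rw [e4] at e1 e3
  rw [e5, mul_one] at e2
  rw [e2, e1] at e3
  have hne : length a (a ⧸ (maximalIdeal c).map (algebraMap c a)) ≠ 0 := by
    intro h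
    rw [Module.length_eq_zero_iff] at h
    have h1 := Ideal.Quotient.subsingleton_iff.1 h
    exact (map_maximalIdeal_lt_top (algebraMap c a)).ne h1
  obtain ⟨l, hl⟩ := ENat.ne_top_iff_exists.1 hfin
  rw [← hl] at e3 hne
  have hl0 : 0 < l := by
    rcases Nat.eq_zero_or_pos l with h | h
    · subst h; exact absurd rfl hne
    · exact h
  have e6 : p ^ Fintype.card s * l = l * p ^ Fintype.card t := by exact_mod_cast e3
  rw [mul_comm] at e6
  have e7 := Nat.eq_of_mul_eq_mul_left hl0 e6
  have e8 := Nat.pow_right_injective (Fact.out : p.Prime).two_le e7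
  rw [Fintype.card_coe, Fintype.card_coe] at e8
  rw [← hs, ← ht, e8]

/-- Descent of regularity. -/
theorem regular_of_flat {p : ℕ} [Fact p.Prime] {c a : Type*} [CommRing c] [CommRing a]
    [ExpChar a p] [IsLocalRing c] [IsNoetherianRing c] [IsRegularLocalRing a]
    [Algebra c a] [Module.Flat c a] [IsLocalHom (algebraMap c a)] [Module.Flat a (Fr p a)]
    (hfin : length a (a ⧸ (maximalIdeal c).map (algebraMap c a)) ≠ ⊤)
    (hdim : ringKrullDim a ≤ ringKrullDim c) : IsRegularLocalRing c := by
  apply IsRegularLocalRing.of_spanFinrank_maximalIdeal_le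
  rw [spanFinrank_eq (p := p) hfin]
  have h := (IsRegularLocalRing.spanFinrank_maximalIdeal : ((maximalIdeal a).spanFinrank : WithBot ℕ∞) = ringKrullDim a)
  rw [h]
  exact hdim

end Pool.Agent.K6.H44.QG
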